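import Pool.Agent.H636Z.Iso.Geo

/-! Finite index subgroups of the triangle group given by an action on 96 flags: freeness,
orientation and abelianization. -/

set_option autoImplicit false

namespace Pool.Agent.H636Z.Iso

open Matrix UpperHalfPlane

/-- The set of flags. -/
abbrev Om : Type := Fin 96

/-- Combinatorial data of a surface tiled by 96 triangles. -/
structure Data where
  /-- action of the generators -/
  sg : Fin 3 → Om → Om
  /-- cocycle -/
  c : Fin 3 → Om → Fin 6 → ℤ
  /-- words of a spanning tree -/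
  t : Om → List (Fin 3)
  /-- letters of the six generating edges -/
  gi : Fin 6 → Fin 3
  /-- flags of the six generating edges -/
  gw : Fin 6 → Om
  /-- elimination order -/
  rk : Fin 3 → Om → ℕ
  /-- relator used for the elimination -/
  why : Fin 3 → Om → Fin 3

/-- Action of a word. -/
def Data.act (D : Data) : List (Fin 3) → Om → Om
  | [], o => o
  | i :: l, o => D.sg i (D.act l o)

/-- Cocycle of a word. -/
def Data.coc (D : Data) : List (Fin 3) → Om → Fin 6 → ℤ
  | [], _, _ => 0
  | i :: l, o, k => D.c i (D.act l o) k + D.coc l o k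

/-- All edges along a word come earlier in the elimination order. -/
def Data.allLt (D : Data) : List (Fin 3) → Om → ℕ → Bool
  | [], _, _ => true
  | i :: l, o, r => decide (D.rk i (D.act l o) < r) && D.allLt l o r

/-- The word of a power of a product of two generators. -/
def pw (i j : Fin 3) : ℕ → List (Fin 3)
  | 0 => []
  | m + 1 => i :: j :: pw i j m

/-- The finite checks on the data. -/
structure Good (D : Data) : Prop where
  rel : ∀ i j o, D.act (pw i j (CM i j)) o = o ∧ ∀ k, D.coc (pw i j (CM i j)) o k = 0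
  free : ∀ i j, ∀ m : Fin 6, m.val < CM i j → m.val ≠ 0 → ∀ o, D.act (pw i j m.val) o ≠ o
  par : ∀ i o, (D.sg i o).val % 2 ≠ o.val % 2
  tree : ∀ o, D.act (D.t o) 0 = o ∧ ∀ k, D.coc (D.t o) 0 k = 0
  t0 : D.t 0 = []
  gen : ∀ k k', D.c (D.gi k) (D.gw k) k' = if k' = k then 1 else 0
  prop : ∀ i o, (D.t (D.sg i o) = i :: D.t o ∧ ∀ k, D.c i o k = 0) ∨
    (∃ k, i = D.gi k ∧ o = D.gw k) ∨
    D.allLt (CoxeterSystem.alternatingWord i (D.why i o) (2 * CM i (D.why i o) - 1)) (D.sg i o)
      (D.rk i o) = true

/-- The generators acting on flags with a lattice coordinate. -/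
def Data.F (D : Data) (i : Fin 3) : Function.End (Om × (Fin 6 → ℤ)) :=
  fun p => (D.sg i p.1, p.2 + D.c i p.1)

lemma F_word (D : Data) (l : List (Fin 3)) (o : Om) (v : Fin 6 → ℤ) :
    (l.map D.F).prod (o, v) = (D.act l o, v + D.coc l o) := by
  induction l with
  | nil =>
    have : D.coc [] o = 0 := rfl
    rw [this, add_zero]; rfl
  | cons i l ih =>
    rw [List.map_cons, List.prod_cons]
    show D.F i ((l.map D.F).prod (o, v)) = _
    rw [ih]
    simp only [Data.F, Data.act, Prod.mk.injEq, true_and]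
    ext k
    simp only [Pi.add_apply, Data.coc]
    ring

lemma pw_prod {M : Type*} [Monoid M] (f : Fin 3 → M) (i j : Fin 3) (m : ℕ) :
    ((pw i j m).map f).prod = (f i * f j) ^ m := by
  induction m with
  | zero => simp [pw]
  | succ m ih => rw [pw, List.map_cons, List.map_cons, List.prod_cons, List.prod_cons, ih,
      pow_succ', mul_assoc]

lemma pw_word (i j : Fin 3) (m : ℕ) :
    cs.wordProd (pw i j m) = (cs.simple i * cs.simple j) ^ m := pw_prod _ i j m

lemma pw_length (i j : Fin 3) (m : ℕ) : (pw i j m).length = 2 * m := by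
  induction m with
  | zero => rfl
  | succ m ih => simp [pw, ih]; ring

variable {D : Data} (h : Good D)
include h

lemma F_lift : CM.IsLiftable D.F := by
  intro i j
  rw [← pw_prod]
  funext p
  obtain ⟨o, v⟩ := p
  rw [F_word, (h.rel i j o).1]
  have : D.coc (pw i j (CM i j)) o = 0 := funext (h.rel i j o).2
  rw [this, add_zero]
  rfl

/-- The action on flags with a lattice coordinate. -/
noncomputable def Th : W →* Function.End (Om × (Fin 6 → ℤ)) := cs.lift ⟨D.F, F_lift h⟩

lemma Th_word (l : List (Fin 3)) : Th h (cs.wordProd l) = (l.map D.F).prod := by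
  induction l with
  | nil => simp
  | cons i l ih =>
    have e : Th h (cs.simple i) = D.F i := cs.lift_apply_simple (F_lift h) i
    rw [cs.wordProd_cons, map_mul, ih, List.map_cons, List.prod_cons, e]

/-- The action on flags. -/
noncomputable def Ac (w : W) (o : Om) : Om := (Th h w (o, 0)).1

/-- The cocycle. -/
noncomputable def Co (w : W) (o : Om) : Fin 6 → ℤ := (Th h w (o, 0)).2

lemma Ac_word (l : List (Fin 3)) (o : Om) : Ac h (cs.wordProd l) o = D.act l o := by
  rw [Ac, Th_word, F_word]

lemma Co_word (l : List (Fin 3)) (o : Om) : Co h (cs.wordProd l) o = D.coc l o := by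
  rw [Co, Th_word, F_word, zero_add]

lemma Th_apply (w : W) (o : Om) (v : Fin 6 → ℤ) : Th h w (o, v) = (Ac h w o, v + Co h w o) := by
  obtain ⟨l, rfl⟩ := cs.wordProd_surjective w
  rw [Ac_word, Co_word, Th_word, F_word]

lemma Th_mul (w w' : W) (o : Om) :
    Th h (w * w') (o, 0) = (Ac h w (Ac h w' o), Co h w' o + Co h w (Ac h w' o)) := by
  rw [map_mul]
  show Th h w (Th h w' (o, 0)) = _
  rw [Th_apply, Th_apply, zero_add]

lemma Ac_mul (w w' : W) (o : Om) : Ac h (w * w') o = Ac h w (Ac h w' o) := by
  rw [Ac, Th_mul]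

lemma Co_mul (w w' : W) (o : Om) : Co h (w * w') o = Co h w' o + Co h w (Ac h w' o) := by
  rw [Co, Th_mul]

lemma Ac_one (o : Om) : Ac h 1 o = o := by rw [Ac, map_one]; rfl

lemma Co_one (o : Om) : Co h 1 o = 0 := by rw [Co, map_one]; rfl

lemma Ac_simple (i : Fin 3) (o : Om) : Ac h (cs.simple i) o = D.sg i o := by
  rw [← cs.wordProd_singleton, Ac_word]; rfl

lemma Co_simple (i : Fin 3) (o : Om) : Co h (cs.simple i) o = D.c i o := by
  rw [← cs.wordProd_singleton, Co_word]
  ext k
  simp [Data.coc, Data.act]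

lemma Ac_inv {w : W} {o o' : Om} (e : Ac h w o = o') : Ac h w⁻¹ o' = o := by
  rw [← e, ← Ac_mul, inv_mul_cancel, Ac_one]

lemma Ac_bij (w : W) : Function.Bijective (Ac h w) :=
  Function.bijective_iff_has_inverse.2 ⟨Ac h w⁻¹, fun _ => Ac_inv h rfl, fun o => by
    rw [← Ac_mul, mul_inv_cancel, Ac_one]⟩

/-- The stabilizer of the base flag. -/
def Stab : Subgroup W where
  carrier := {w | Ac h w 0 = 0}
  one_mem' := Ac_one h 0
  mul_mem' := fun {a b} ha hb => by
    show Ac h (a * b) 0 = 0
    rw [Ac_mul, hb, ha]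
  inv_mem' := fun ha => Ac_inv h ha

lemma mem_Stab {w : W} : w ∈ Stab h ↔ Ac h w 0 = 0 := Iff.rfl

lemma act_par (l : List (Fin 3)) (o : Om) : (D.act l o).val % 2 = (o.val + l.length) % 2 := by
  induction l with
  | nil => rfl
  | cons i l ih =>
    have := h.par i (D.act l o)
    simp only [Data.act, List.length_cons]
    omega

lemma moebius (w : W) (o : Om) : ∃ g : GL (Fin 2) ℝ, (∀ z : ℍ, io w z = g • z) ∧
    g.det.val = if (Ac h w o).val % 2 = o.val % 2 then 1 else -1 := by
  induction w using cs.simple_induction_left with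
  | one => exact ⟨1, fun z => by rw [map_one, one_smul]; rfl, by rw [Ac_one]; simp⟩
  | mul_simple_left w i ih =>
    obtain ⟨g, h1, h2⟩ := ih
    refine ⟨gg i * g, fun z => by rw [io_mul_apply, io_simple, rr_apply, h1, mul_smul], ?_⟩
    rw [map_mul, Units.val_mul, gg_det, h2, Ac_mul, Ac_simple]
    have := h.par i (Ac h w o)
    split_ifs <;> first | omega | norm_num

theorem stab_moebius {w : W} (hw : w ∈ Stab h) : ∃ a b c d : ℝ, a * d - b * c = 1 ∧
    ∀ z : ℍ, ((io w z : ℍ) : ℂ) = ((a : ℂ) * (z : ℂ) + (b : ℂ)) / ((c : ℂ) * (z : ℂ) + (d : ℂ)) := by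
  obtain ⟨g, h1, h2⟩ := moebius h w 0
  rw [(mem_Stab h).1 hw, if_pos rfl] at h2
  refine ⟨g 0 0, g 0 1, g 1 0, g 1 1, ?_, fun z => ?_⟩
  · rw [Matrix.GeneralLinearGroup.val_det_apply, Matrix.det_fin_two] at h2
    exact h2
  · rw [h1, coe_smul_of_det_pos (by rw [h2]; norm_num)]
    rfl

omit h in
lemma others : ∀ n : Fin 3, ∃ i j : Fin 3, ∀ k, k ≠ n → k = i ∨ k = j := by decide

theorem stab_free {w : W} (hw : w ∈ Stab h) {z : ℍ} (hz : io w z = z) : w = 1 := by
  obtain ⟨u, hu⟩ := exists_min z
  have hc := ch_of_min' hu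
  have e1 : io (u * w * u⁻¹) (io u z) = io u z := by
    rw [← io_mul_apply, inv_mul_cancel_right, io_mul_apply, hz]
  have e2 : Ac h (u * w * u⁻¹) (Ac h u 0) = Ac h u 0 := by
    rw [← Ac_mul, inv_mul_cancel_right, Ac_mul, (mem_Stab h).1 hw]
  have hn : ∃ n, (toR G *ᵥ Y (io u z)) n ≠ 0 := by
    by_contra hc'
    push Not at hc'
    have := B_Y_self (io u z)
    unfold B at this
    rw [show toR G *ᵥ Y (io u z) = 0 from funext hc'] at this
    simp at this
  obtain ⟨n, hn⟩ := hn
  obtain ⟨i, j, hij⟩ := others n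
  have hM := (CM_le i j).2
  have key := (chamber hc (fun w => ∃ m : ℕ, w = (cs.simple i * cs.simple j) ^ m ∨
      w = (cs.simple i * cs.simple j) ^ m * cs.simple i) ⟨0, Or.inl (by simp)⟩ (by
    rintro w k hk ⟨m, rfl | rfl⟩
    · rcases hij k (fun e => hn (e ▸ hk)) with rfl | rfl
      · exact ⟨m, Or.inr rfl⟩
      · refine ⟨m + (CM i k - 1), Or.inr ?_⟩
        have e : (cs.simple i * cs.simple k) ^ (m + (CM i k - 1)) * (cs.simple i * cs.simple k) =
            (cs.simple i * cs.simple k) ^ m := by
          rw [← pow_succ, show m + (CM i k - 1) + 1 = m + CM i k by omega, pow_add,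
            cs.simple_mul_simple_pow, mul_one]
        rw [← e, ← mul_assoc, cs.simple_mul_simple_cancel_right]
    · rcases hij k (fun e => hn (e ▸ hk)) with rfl | rfl
      · exact ⟨m, Or.inl (by simp)⟩
      · exact ⟨m + 1, Or.inl (by rw [pow_succ, mul_assoc])⟩) _ (u * w * u⁻¹) rfl
    (by rw [← io_rel, e1]; exact hc)).1
  have e3 : u * w * u⁻¹ = 1 := by
    obtain ⟨m, e | e⟩ := key
    · rw [pow_eq_pow_mod m (cs.simple_mul_simple_pow i j)] at e
      have hlt : m % CM i j < CM i j := Nat.mod_lt _ (by omega)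
      have h6 : m % CM i j < 6 := by have := (CM_le i j).1; omega
      by_cases h0 : m % CM i j = 0
      · rw [e, h0, pow_zero]
      · exfalso
        apply h.free i j ⟨_, h6⟩ hlt h0 (Ac h u 0)
        rw [← Ac_word h, pw_word, ← e, e2]
    · exfalso
      rw [← pw_word, ← cs.wordProd_concat] at e
      rw [e, Ac_word] at e2
      have := act_par h ((pw i j m).concat i) (Ac h u 0)
      rw [e2, List.length_concat, pw_length] at this
      omega
  rw [mul_inv_eq_one, mul_eq_left] at e3
  exact e3

/-- Coset representatives. -/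
noncomputable def tw (_h : Good D) (o : Om) : W := cs.wordProd (D.t o)

lemma Ac_tw (o : Om) : Ac h (tw h o) 0 = o := by rw [tw, Ac_word, (h.tree o).1]

lemma Co_tw (o : Om) : Co h (tw h o) 0 = 0 := by
  rw [tw, Co_word]; exact funext (h.tree o).2

lemma tw_zero : tw h 0 = 1 := by rw [tw, h.t0]; rfl

/-- Schreier elements. -/
noncomputable def Sch (w : W) (o : Om) : Stab h :=
  ⟨(tw h (Ac h w o))⁻¹ * w * tw h o, by
    rw [mem_Stab, Ac_mul, Ac_mul, Ac_tw]
    exact Ac_inv h (Ac_tw h _)⟩

lemma Sch_mul (w w' : W) (o : Om) : Sch h (w * w') o = Sch h w (Ac h w' o) * Sch h w' o := by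
  apply Subtype.ext
  simp only [Sch, Subgroup.coe_mul, Ac_mul]
  group

lemma Sch_one (o : Om) : Sch h 1 o = 1 := by
  apply Subtype.ext
  simp [Sch, Ac_one]

lemma Co_Sch (w : W) (o : Om) : Co h (Sch h w o) 0 = Co h w o := by
  have e : tw h (Ac h w o) * (Sch h w o : W) = w * tw h o := by
    simp only [Sch]; group
  have e2 := congrArg (fun x => Co h x 0) e
  simp only [Co_mul] at e2
  rw [(mem_Stab h).1 (Sch h w o).2, Co_tw, Co_tw, Ac_tw, add_zero, zero_add] at e2
  exact e2

/-- The homomorphism from the stabilizer to the lattice. -/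
noncomputable def th : Stab h →* Multiplicative (Fin 6 → ℤ) where
  toFun w := Multiplicative.ofAdd (Co h w 0)
  map_one' := by rw [OneMemClass.coe_one, Co_one]; rfl
  map_mul' a b := by
    rw [Subgroup.coe_mul, Co_mul, (mem_Stab h).1 b.2, add_comm]; rfl

/-- The six generators of the abelianization. -/
noncomputable def ge (k : Fin 6) : Abelianization (Stab h) :=
  Abelianization.of (Sch h (cs.simple (D.gi k)) (D.gw k))

/-- The inverse map. -/
noncomputable def ps : Multiplicative (Fin 6 → ℤ) →* Abelianization (Stab h) where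
  toFun v := ∏ k, ge h k ^ (v.toAdd k)
  map_one' := by simp
  map_mul' a b := by simp [_root_.zpow_add, Finset.prod_mul_distrib]

lemma ps_apply (v : Fin 6 → ℤ) : ps h (Multiplicative.ofAdd v) = ∏ k, ge h k ^ (v k) := rfl

/-- The class of a Schreier element is given by the cocycle. -/
def OK (w : W) (o : Om) : Prop :=
  Abelianization.of (Sch h w o) = ps h (Multiplicative.ofAdd (Co h w o))

lemma OK_one (o : Om) : OK h 1 o := by
  unfold OK
  rw [Sch_one, Co_one, map_one, ofAdd_zero, map_one]

lemma OK_mul {w w' : W} {o : Om} (h1 : OK h w (Ac h w' o)) : OK h (w * w') o ↔ OK h w' o := by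
  unfold OK at *
  rw [Sch_mul, Co_mul, map_mul, h1, add_comm, ofAdd_add, map_mul, mul_right_inj]

lemma OK_word {r : ℕ} (ih : ∀ i o, D.rk i o < r → OK h (cs.simple i) o) (l : List (Fin 3))
    (o : Om) (hl : D.allLt l o r = true) : OK h (cs.wordProd l) o := by
  induction l with
  | nil => exact OK_one h o
  | cons i l ihl =>
    simp only [Data.allLt, Bool.and_eq_true, decide_eq_true_eq] at hl
    rw [cs.wordProd_cons, OK_mul h (by rw [Ac_word]; exact ih _ _ hl.1)]
    exact ihl hl.2

lemma OK_simple (r : ℕ) : ∀ i o, D.rk i o = r → OK h (cs.simple i) o := by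
  induction r using Nat.strong_induction_on with
  | _ r ih =>
  intro i o hr
  rcases h.prop i o with ⟨h1, h2⟩ | ⟨k, rfl, rfl⟩ | h3
  · unfold OK
    have e : Sch h (cs.simple i) o = 1 := by
      apply Subtype.ext
      simp only [Sch, Ac_simple, tw, h1, cs.wordProd_cons, OneMemClass.coe_one]
      group
    rw [e, Co_simple, show D.c i o = 0 from funext h2, map_one, ofAdd_zero, map_one]
  · unfold OK
    rw [Co_simple, ps_apply]
    simp only [h.gen, pow_ite, _root_.zpow_one, _root_.zpow_zero, Finset.prod_ite_eq',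
      Finset.mem_univ, if_true]
    rfl
  · have h4 := OK_word h (r := r) (fun i o hi => ih _ hi i o rfl) _ _ (hr ▸ h3)
    rw [← OK_mul h (by rw [Ac_simple]; exact h4), ← cs.wordProd_concat,
      ← CoxeterSystem.alternatingWord_succ,
      show 2 * CM i (D.why i o) - 1 + 1 = 2 * CM i (D.why i o) by
        have := (CM_le i (D.why i o)).2; omega,
      cs.prod_alternatingWord_eq_mul_pow, if_pos (even_two_mul _), one_mul,
      Nat.mul_div_cancel_left _ (by norm_num), cs.simple_mul_simple_pow']
    exact OK_one h o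

lemma OK_all (w : W) : ∀ o, OK h w o := by
  induction w using cs.simple_induction_left with
  | one => exact OK_one h
  | mul_simple_left w i ih =>
    intro o
    rw [OK_mul h (OK_simple h _ i _ rfl)]
    exact ih o

theorem ab_equiv : Nonempty (Abelianization (Stab h) ≃* Multiplicative (Fin 6 → ℤ)) := by
  refine ⟨MonoidHom.toMulEquiv (Abelianization.lift (th h)) (ps h) ?_ ?_⟩
  · apply Abelianization.hom_ext
    ext1 w
    have := OK_all h w 0
    unfold OK at this
    have e : Sch h w 0 = w := by
      apply Subtype.ext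
      simp only [Sch, (mem_Stab h).1 w.2, tw_zero, inv_one, one_mul, mul_one]
    rw [e] at this
    simp only [MonoidHom.comp_apply, Abelianization.lift_apply_of, MonoidHom.id_apply]
    exact this.symm
  · apply MonoidHom.ext
    intro v
    have e : ∀ k, Abelianization.lift (th h) (ge h k) =
        Multiplicative.ofAdd (fun k' => if k' = k then (1 : ℤ) else 0) := by
      intro k
      rw [ge, Abelianization.lift_apply_of]
      show Multiplicative.ofAdd (Co h _ 0) = _
      rw [Co_Sch, Co_simple]
      congr 1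
      exact funext (h.gen k)
    show Abelianization.lift (th h) (∏ k, ge h k ^ (v.toAdd k)) = v
    rw [map_prod]
    simp only [map_zpow, e]
    apply Multiplicative.toAdd.injective
    ext k
    simp [toAdd_prod, Finset.sum_apply]

end Pool.Agent.H636Z.Iso
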