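import Pool.Agent.H636Z.Iso.Tits

/-! The action of the triangle group on the upper half plane by isometries, through the
hyperboloid model. -/

set_option autoImplicit false

namespace Pool.Agent.H636Z.Iso

open Matrix UpperHalfPlane

lemma s2_sq : √2 * √2 = (2 : ℝ) := Real.mul_self_sqrt (by norm_num)
lemma s3_sq : √3 * √3 = (3 : ℝ) := Real.mul_self_sqrt (by norm_num)
lemma s2_pos : (0 : ℝ) < √2 := Real.sqrt_pos.2 (by norm_num)
lemma s3_pos : (0 : ℝ) < √3 := Real.sqrt_pos.2 (by norm_num)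

/-- First light cone coordinate. -/
noncomputable def cP (z : ℍ) : ℝ := (z.re ^ 2 + z.im ^ 2) / z.im
/-- Middle coordinate. -/
noncomputable def cX (z : ℍ) : ℝ := z.re / z.im
/-- Second light cone coordinate. -/
noncomputable def cQ (z : ℍ) : ℝ := 1 / z.im

/-- Root coordinates from light cone coordinates. -/
noncomputable def mkY (P X Q : ℝ) : Fin 3 → ℝ :=
  ![√2 * (P + Q) / 2, ((P - Q) / 2 + √2 * (P + Q) / 2) / 2,
    (√2 * √3 / 3 * X + √2 * (P + Q) / 2) / 2]

/-- The hyperboloid model in the basis of simple roots. -/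
noncomputable def Y (z : ℍ) : Fin 3 → ℝ := mkY (cP z) (cX z) (cQ z)

lemma B_mkY (P X Q P' X' Q' : ℝ) :
    B (mkY P X Q) (mkY P' X' Q') = X * X' - (P * Q' + Q * P') / 2 := by
  rw [B_eq]
  simp only [mkY, Matrix.cons_val_zero, Matrix.cons_val_one, Matrix.cons_val]
  have h2 := s2_sq
  have h3 := s3_sq
  linear_combination (-(P + Q) * (P' + Q') / 8 + √3 * √3 * X * X' / 6) * h2 + (X * X' / 3) * h3

lemma B_Y (z w : ℍ) : B (Y z) (Y w) = - Real.cosh (dist z w) := by
  rw [Y, Y, B_mkY, cosh_dist', cP, cP, cX, cX, cQ, cQ]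
  have := z.im_pos
  have := w.im_pos
  field_simp
  ring

lemma dist_le_iff (z w z' w' : ℍ) :
    dist z w ≤ dist z' w' ↔ B (Y z') (Y w') ≤ B (Y z) (Y w) := by
  rw [B_Y, B_Y, neg_le_neg_iff, Real.cosh_le_cosh, abs_of_nonneg dist_nonneg,
    abs_of_nonneg dist_nonneg]

lemma dist_eq_of_B {z w z' w' : ℍ} (h : B (Y z) (Y w) = B (Y z') (Y w')) :
    dist z w = dist z' w' :=
  le_antisymm ((dist_le_iff _ _ _ _).2 h.ge) ((dist_le_iff _ _ _ _).2 h.le)

lemma Y_inj {z w : ℍ} (h : Y z = Y w) : z = w := by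
  have : dist z w = dist z z := dist_eq_of_B (by rw [h])
  rwa [dist_self, dist_eq_zero] at this

lemma B_Y_self (z : ℍ) : B (Y z) (Y z) = -1 := by rw [B_Y, dist_self, Real.cosh_zero]

lemma Y_pos0 (z : ℍ) : 0 < Y z 0 := by
  have := z.im_pos
  have h2 := s2_pos
  simp only [Y, mkY, cP, cQ, Matrix.cons_val_zero]
  positivity

lemma Y_pos (z : ℍ) (k : Fin 3) : 0 < Y z k := by
  have h0 := Y_pos0 z
  have h1 := B_Y_self z
  rw [B_eq] at h1
  fin_cases k
  · exact h0
  · show 0 < Y z 1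
    by_contra hc
    push Not at hc
    nlinarith [sq_nonneg (2 * Y z 2 - Y z 0), mul_nonneg_of_nonpos_of_nonpos hc hc,
      mul_nonneg h0.le (neg_nonneg.2 hc)]
  · show 0 < Y z 2
    by_contra hc
    push Not at hc
    nlinarith [sq_nonneg (2 * Y z 1 - Y z 0), mul_nonneg_of_nonpos_of_nonpos hc hc,
      mul_nonneg h0.le (neg_nonneg.2 hc)]

lemma Y_surj {x : Fin 3 → ℝ} (h : B x x = -1) (h0 : 0 < x 0) : ∃ z : ℍ, Y z = x := by
  rw [B_eq] at h
  have h2 := s2_sq
  have h3 := s3_sq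
  have p2 := s2_pos
  set t := √2 * x 0 / 2 with ht
  set v := 2 * x 1 - x 0 with hv
  set u := √2 * √3 / 2 * (2 * x 2 - x 0) with hu
  have key : t ^ 2 = 1 + u ^ 2 + v ^ 2 := by
    rw [ht, hv, hu]
    linear_combination (-1) * h + (x 0 ^ 2 / 4 - √3 * √3 * (2 * x 2 - x 0) ^ 2 / 4) * h2
      - ((2 * x 2 - x 0) ^ 2 / 2) * h3
  have tpos : 0 < t := by rw [ht]; positivity
  have d : 0 < t - v := by
    by_contra hc
    push Not at hc
    nlinarith [sq_nonneg u]
  refine ⟨⟨⟨u / (t - v), 1 / (t - v)⟩, by positivity⟩, ?_⟩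
  have eP : cP ⟨⟨u / (t - v), 1 / (t - v)⟩, by positivity⟩ = t + v := by
    simp only [cP, mk_re, mk_im]
    field_simp
    linear_combination (-1) * key
  have eX : cX ⟨⟨u / (t - v), 1 / (t - v)⟩, by positivity⟩ = u := by
    simp only [cX, mk_re, mk_im]
    field_simp
  have eQ : cQ ⟨⟨u / (t - v), 1 / (t - v)⟩, by positivity⟩ = t - v := by
    simp only [cQ, mk_im]
    field_simp
  rw [Y, eP, eX, eQ]
  ext k
  fin_cases k
  · simp [mkY, ht]
    linear_combination (x 0 / 2) * h2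
  · simp [mkY, ht, hv]
    linear_combination (x 0 / 4) * h2
  · simp [mkY, ht, hu]
    linear_combination (x 0 / 4 + √3 * √3 * (2 * x 2 - x 0) / 12) * h2
      + ((2 * x 2 - x 0) / 6) * h3

lemma coords_smul (g : GL (Fin 2) ℝ) (hg : |g.det.val| = 1) (z : ℍ) :
    cP (g • z) = g 0 0 ^ 2 * cP z + 2 * g 0 0 * g 0 1 * cX z + g 0 1 ^ 2 * cQ z ∧
    cX (g • z) = g 0 0 * g 1 0 * cP z + (g 0 0 * g 1 1 + g 0 1 * g 1 0) * cX z
      + g 0 1 * g 1 1 * cQ z ∧
    cQ (g • z) = g 1 0 ^ 2 * cP z + 2 * g 1 0 * g 1 1 * cX z + g 1 1 ^ 2 * cQ z := by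
  have him : (g • z).im = z.im / Complex.normSq (denom g z) := by
    rw [im_smul_eq_div_normSq, hg, one_mul]
  have hre : (g • z).re = (num g z / denom g z).re := re_smul g z
  have hN := normSq_denom_ne_zero g (z := z) z.im_ne_zero
  have hy := z.im_ne_zero
  have hdet : (g 0 0 * g 1 1 - g 0 1 * g 1 0) ^ 2 = 1 := by
    have : g.det.val = g 0 0 * g 1 1 - g 0 1 * g 1 0 := by
      rw [Matrix.GeneralLinearGroup.val_det_apply, Matrix.det_fin_two]
    rw [← this, ← sq_abs, hg]; norm_num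
  have eN : Complex.normSq (denom g z) = (g 1 0 * z.re + g 1 1) ^ 2 + (g 1 0 * z.im) ^ 2 := by
    simp [denom, Complex.normSq_apply]; ring
  have eR : (g • z).re = ((g 0 0 * z.re + g 0 1) * (g 1 0 * z.re + g 1 1)
      + g 0 0 * g 1 0 * z.im ^ 2) / Complex.normSq (denom g z) := by
    rw [hre, Complex.div_re]
    field_simp
    simp [num, denom]; ring
  generalize Complex.normSq (denom g z) = N at hN him eR eN
  have eA : ((g 0 0 * z.re + g 0 1) * (g 1 0 * z.re + g 1 1)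
      + g 0 0 * g 1 0 * z.im ^ 2) ^ 2 + z.im ^ 2 =
      (g 0 0 ^ 2 * (z.re ^ 2 + z.im ^ 2) + 2 * g 0 0 * g 0 1 * z.re + g 0 1 ^ 2) * N := by
    rw [eN]
    linear_combination (-z.im ^ 2) * hdet
  refine ⟨?_, ?_, ?_⟩
  · simp only [cP, cX, cQ, him, eR]
    rw [div_pow, div_pow, ← add_div, eA]
    field_simp
  · simp only [cP, cX, cQ, him, eR]
    field_simp
    ring
  · simp only [cP, cX, cQ, him]
    field_simp
    rw [eN]
    ring

/-- Real two by two matrices of the three reflections. -/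
noncomputable def gm : Fin 3 → Matrix (Fin 2) (Fin 2) ℝ :=
  ![!![√3 / 2, (1 - √2) / 2; (-1 - √2) / 2, -√3 / 2], !![0, 1; 1, 0], !![-1, 0; 0, 1]]

lemma gm_det (i : Fin 3) : (gm i).det = -1 := by
  fin_cases i <;> simp [gm, Matrix.det_fin_two]
  linear_combination (-1 / 4) * s3_sq - (1 / 4) * s2_sq

/-- The three reflections as elements of the general linear group. -/
noncomputable def gg (i : Fin 3) : GL (Fin 2) ℝ :=
  Matrix.GeneralLinearGroup.mkOfDetNeZero (gm i) (by rw [gm_det]; norm_num)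

lemma gg_apply (i : Fin 3) (a b : Fin 2) : gg i a b = gm i a b := rfl

lemma gg_det (i : Fin 3) : (gg i).det.val = -1 := by
  rw [Matrix.GeneralLinearGroup.val_det_apply]; exact gm_det i

lemma Y_gg (i : Fin 3) (z : ℍ) : Y (gg i • z) = toR (R i) *ᵥ Y z := by
  obtain ⟨e1, e2, e3⟩ := coords_smul (gg i) (by rw [gg_det]; norm_num) z
  rw [Y, e1, e2, e3]
  have h2 := s2_sq
  have h3 := s3_sq
  ext k
  fin_cases i <;> fin_cases k <;>
    simp [gg_apply, gm, mkY, Y, toR, R, Matrix.mulVec, dotProduct, Fin.sum_univ_three]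
  all_goals
    clear e1 e2 e3
    generalize √2 = a at *
    generalize √3 = b at *
    grind

/-- An isometry is represented by an integer matrix. -/
def Rel (φ : ℍ ≃ᵢ ℍ) (A : Matrix (Fin 3) (Fin 3) ℤ) : Prop := ∀ z, Y (φ z) = toR A *ᵥ Y z

lemma Rel.one : Rel 1 1 := fun z => by rw [toR_one, Matrix.one_mulVec]; rfl

lemma Rel.mul {φ ψ : ℍ ≃ᵢ ℍ} {A C : Matrix (Fin 3) (Fin 3) ℤ} (h : Rel φ A) (h' : Rel ψ C) :
    Rel (φ * ψ) (A * C) := fun z => by
  rw [toR_mul, ← Matrix.mulVec_mulVec, ← h' z, ← h (ψ z)]; rfl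

lemma Rel.pow {φ : ℍ ≃ᵢ ℍ} {A : Matrix (Fin 3) (Fin 3) ℤ} (h : Rel φ A) (n : ℕ) :
    Rel (φ ^ n) (A ^ n) := by
  induction n with
  | zero => simpa using Rel.one
  | succ n ih => rw [pow_succ, pow_succ]; exact ih.mul h

lemma RR_orth (i : Fin 3) : (toR (R i))ᵀ * toR G * toR (R i) = toR G := by
  rw [← toR_transpose, ← toR_mul, ← toR_mul, R_orth]

/-- The reflections as isometries of the upper half plane. -/
noncomputable def rr (i : Fin 3) : ℍ ≃ᵢ ℍ where
  toEquiv := MulAction.toPerm (gg i)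
  isometry_toFun := Isometry.of_dist_eq fun z w => by
    apply dist_eq_of_B
    show B (Y (gg i • z)) (Y (gg i • w)) = _
    rw [Y_gg, Y_gg, B_orth (RR_orth i)]

lemma rr_apply (i : Fin 3) (z : ℍ) : rr i z = gg i • z := rfl

lemma rr_rel (i : Fin 3) : Rel (rr i) (R i) := fun z => Y_gg i z

lemma rr_lift : CM.IsLiftable rr := by
  intro i j
  ext1 z
  apply Y_inj
  rw [((rr_rel i).mul (rr_rel j)).pow _ z, R_lift i j, toR_one, Matrix.one_mulVec]
  rfl

/-- The action of the triangle group on the upper half plane. -/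
noncomputable def io : W →* (ℍ ≃ᵢ ℍ) := cs.lift ⟨rr, rr_lift⟩

lemma io_simple (i : Fin 3) : io (cs.simple i) = rr i := cs.lift_apply_simple rr_lift i

lemma io_rel (w : W) : Rel (io w) (rho w) := by
  induction w using cs.simple_induction_right with
  | one => rw [map_one, map_one]; exact Rel.one
  | mul_simple_right w i ih =>
    rw [map_mul, map_mul, io_simple, rho_simple]; exact ih.mul (rr_rel i)

lemma io_mul_apply (w w' : W) (z : ℍ) : io (w * w') z = io w (io w' z) := by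
  rw [map_mul]; rfl

/-- Real vector of an integer vector. -/
def vR (n : Fin 3 → ℤ) : Fin 3 → ℝ := fun k => (n k : ℝ)

lemma toR_mulVec (A : Matrix (Fin 3) (Fin 3) ℤ) (n : Fin 3 → ℤ) :
    toR A *ᵥ vR n = vR (A *ᵥ n) := by
  ext k
  simp [toR, vR, Matrix.mulVec, dotProduct]

lemma vR_inj {n m : Fin 3 → ℤ} (h : vR n = vR m) : n = m := by
  ext k
  have := congrFun h k
  simp only [vR] at this
  exact_mod_cast this

/-- Three lattice vectors: an interior point of the chamber and two vertices. -/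
def uu : Fin 3 → Fin 3 → ℤ := ![![7, 3, 3], ![2, 1, 1], ![4, 1, 2]]

/-- Their norms. -/
def NN : Fin 3 → ℤ := ![22, 2, 4]

lemma NN_pos (j : Fin 3) : (0 : ℝ) < NN j := by fin_cases j <;> simp [NN]

lemma B_smul (a b : ℝ) (x y : Fin 3 → ℝ) : B (a • x) (b • y) = a * b * B x y := by
  simp only [B_eq, Pi.smul_apply, smul_eq_mul]; ring

lemma B_uu (j : Fin 3) : B (vR (uu j)) (vR (uu j)) = - NN j := by
  fin_cases j <;> simp [B_eq, vR, uu, NN] <;> norm_num

lemma exists_pt (j : Fin 3) : ∃ z : ℍ, √(NN j) • Y z = vR (uu j) := by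
  have hp := NN_pos j
  have hs : (0 : ℝ) < √(NN j) := Real.sqrt_pos.2 hp
  obtain ⟨z, hz⟩ := Y_surj (x := (√(NN j))⁻¹ • vR (uu j)) (by
    rw [B_smul, B_uu, ← mul_inv, Real.mul_self_sqrt hp.le]
    field_simp) (by
    simp only [Pi.smul_apply, smul_eq_mul]
    apply mul_pos (inv_pos.2 hs)
    fin_cases j <;> simp [vR, uu])
  exact ⟨z, by rw [hz, smul_smul, mul_inv_cancel₀ hs.ne', one_smul]⟩

/-- The points of the upper half plane on the rays of the three lattice vectors. -/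
noncomputable def pt (j : Fin 3) : ℍ := (exists_pt j).choose

lemma pt_spec (j : Fin 3) : √(NN j) • Y (pt j) = vR (uu j) := (exists_pt j).choose_spec

lemma sN_pos (j : Fin 3) : (0 : ℝ) < √(NN j) := Real.sqrt_pos.2 (NN_pos j)

/-- The height function. -/
def ht (x : Fin 3 → ℝ) : ℝ := x 0 + 2 * x 1 + 3 * x 2

lemma ht_eq (z : ℍ) : ht (Y z) = - (√(NN 0) * B (Y z) (Y (pt 0))) := by
  have : B (Y z) (√(NN 0) • Y (pt 0)) = √(NN 0) * B (Y z) (Y (pt 0)) := by
    have := B_smul 1 (√(NN 0)) (Y z) (Y (pt 0))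
    rwa [one_smul, one_mul] at this
  rw [← this, pt_spec, B_eq, ht]
  simp [vR, uu]
  ring

lemma dist_le_ht (z w : ℍ) : dist z (pt 0) ≤ dist w (pt 0) ↔ ht (Y z) ≤ ht (Y w) := by
  rw [dist_le_iff, ht_eq, ht_eq, neg_le_neg_iff, mul_le_mul_iff_right₀ (sN_pos 0)]

lemma ch_of_min {z : ℍ} (h : ∀ i, dist z (pt 0) ≤ dist (io (cs.simple i) z) (pt 0)) :
    Ch (Y z) := by
  intro i
  have := (dist_le_ht _ _).1 (h i)
  rw [io_rel, rho_simple] at this
  fin_cases i <;>
    simp [ht, toR, G, R, dotProduct, Matrix.mulVec, Fin.sum_univ_three] at this ⊢ <;> linarith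

lemma Ch_smul {x : Fin 3 → ℝ} {a : ℝ} (ha : 0 < a) : Ch (a • x) ↔ Ch x := by
  unfold Ch
  simp only [Matrix.mulVec_smul, Pi.smul_apply, smul_eq_mul]
  exact forall_congr' fun i => by
    constructor
    · intro h; by_contra hc; push Not at hc; have := mul_pos ha hc; linarith
    · intro h; exact mul_nonpos_of_nonneg_of_nonpos ha.le h

lemma G_u0 (i : Fin 3) : (toR G *ᵥ vR (uu 0)) i < 0 := by
  fin_cases i <;> simp [toR, G, vR, uu, dotProduct, Matrix.mulVec, Fin.sum_univ_three] <;> norm_num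

lemma eq_one_of_fix {w : W} (h : io w (pt 0) = pt 0) : w = 1 := by
  have e : toR (rho w) *ᵥ vR (uu 0) = vR (uu 0) := by
    rw [← pt_spec, Matrix.mulVec_smul, ← io_rel, h]
  have hc : Ch (vR (uu 0)) := fun i => (G_u0 i).le
  exact (chamber hc (fun w => w = 1) rfl (fun w i hi _ => absurd hi (G_u0 i).ne) _ w rfl
    (by rw [e]; exact hc)).1

lemma io_inj : Function.Injective io := by
  rw [injective_iff_map_eq_one]
  intro w hw
  exact eq_one_of_fix (by rw [hw]; rfl)

lemma finite_ball (r : ℝ) : {w : W | dist (io w (pt 0)) (pt 0) ≤ r}.Finite := by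
  obtain ⟨C, hC⟩ := exists_nat_ge (√(NN 0) * (√(NN 0) * Real.cosh r))
  apply Set.Finite.of_finite_image (f := fun w => rho w *ᵥ uu 0)
  · apply Set.Finite.subset (Set.Finite.pi' (t := fun _ : Fin 3 => Set.Icc (0 : ℤ) C)
      fun _ => Set.finite_Icc _ _)
    rintro _ ⟨w, hw, rfl⟩
    have e : vR (rho w *ᵥ uu 0) = √(NN 0) • Y (io w (pt 0)) := by
      rw [← toR_mulVec, ← pt_spec, Matrix.mulVec_smul, ← io_rel]
    have h1 : ht (Y (io w (pt 0))) ≤ √(NN 0) * Real.cosh r := by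
      rw [ht_eq, B_Y, mul_neg, neg_neg]
      apply mul_le_mul_of_nonneg_left _ (sN_pos 0).le
      rw [Real.cosh_le_cosh, abs_of_nonneg dist_nonneg]
      exact le_trans hw (le_abs_self r)
    intro k
    have p0 := Y_pos (io w (pt 0)) 0
    have p1 := Y_pos (io w (pt 0)) 1
    have p2 := Y_pos (io w (pt 0)) 2
    have pk := Y_pos (io w (pt 0)) k
    have hk : Y (io w (pt 0)) k ≤ √(NN 0) * Real.cosh r := by
      unfold ht at h1
      fin_cases k <;> simp only [Fin.zero_eta, Fin.mk_one, Fin.reduceFinMk] <;> linarith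
    have ek := congrFun e k
    simp only [vR, Pi.smul_apply, smul_eq_mul] at ek
    have s := sN_pos 0
    constructor
    · have : (0 : ℝ) ≤ ((rho w *ᵥ uu 0) k : ℤ) := by rw [ek]; positivity
      exact_mod_cast this
    · have : (((rho w *ᵥ uu 0) k : ℤ) : ℝ) ≤ C := by
        rw [ek]; exact le_trans (mul_le_mul_of_nonneg_left hk s.le) hC
      exact_mod_cast this
  · intro w _ w' _ h
    simp only at h
    have e : io w (pt 0) = io w' (pt 0) := by
      apply Y_inj
      apply smul_right_injective _ (sN_pos 0).ne'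
      simp only
      rw [io_rel, io_rel, ← Matrix.mulVec_smul, ← Matrix.mulVec_smul, pt_spec, toR_mulVec,
        toR_mulVec, h]
    have : w'⁻¹ * w = 1 := eq_one_of_fix (by
      rw [io_mul_apply, e, ← io_mul_apply, inv_mul_cancel, map_one]; rfl)
    rw [inv_mul_eq_one] at this
    exact this.symm

lemma exists_min (z : ℍ) : ∃ w : W, ∀ w' : W, dist (io w z) (pt 0) ≤ dist (io w' z) (pt 0) := by
  have hf : {w : W | dist (io w z) (pt 0) ≤ dist z (pt 0)}.Finite := by
    apply (finite_ball (2 * dist z (pt 0))).subset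
    intro w hw
    have h1 := dist_triangle (io w (pt 0)) (io w z) (pt 0)
    rw [(io w).dist_eq, dist_comm (pt 0) z] at h1
    simp only [Set.mem_ofPred_eq] at hw ⊢
    linarith
  have hne : {w : W | dist (io w z) (pt 0) ≤ dist z (pt 0)}.Nonempty :=
    ⟨1, by simp only [Set.mem_ofPred_eq, map_one]; exact le_rfl⟩
  obtain ⟨w, hw, hmin⟩ := Set.exists_min_image _ (fun w => dist (io w z) (pt 0)) hf hne
  refine ⟨w, fun w' => ?_⟩
  by_cases h : dist (io w' z) (pt 0) ≤ dist z (pt 0)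
  · exact hmin w' h
  · exact le_trans hw (not_le.1 h).le

lemma ch_of_min' {z : ℍ} {w : W} (h : ∀ w' : W, dist (io w z) (pt 0) ≤ dist (io w' z) (pt 0)) :
    Ch (Y (io w z)) :=
  ch_of_min fun i => by rw [← io_mul_apply]; exact h _

lemma ch_bound {z : ℍ} (h : Ch (Y z)) : dist z (pt 0) ≤ 12 := by
  have h1 := B_Y_self z
  have p0 := Y_pos z 0
  have p1 := Y_pos z 1
  have p2 := Y_pos z 2
  have c0 := h 0
  have c1 := h 1
  have c2 := h 2
  rw [B_eq] at h1
  simp [toR, G, dotProduct, Matrix.mulVec, Fin.sum_univ_three] at c0 c1 c2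
  have a2 : Y z 0 ≤ 2 := by
    have hq : 0 ≤ 2 * Y z 0 - 4 * Y z 1 := by linarith
    have hr : 0 ≤ 3 * Y z 0 - 6 * Y z 2 := by linarith
    have hp : (2 * Y z 0 - 4 * Y z 1) + (3 * Y z 0 - 6 * Y z 2) ≤ Y z 0 := by linarith
    have h5 := mul_self_le_mul_self (add_nonneg hq hr) hp
    by_contra hc
    push Not at hc
    nlinarith [mul_nonneg hq hr, mul_nonneg hr hr]
  have h2 : ht (Y z) ≤ 12 := by unfold ht; linarith
  rw [ht_eq, B_Y, mul_neg, neg_neg] at h2
  have s1 : (1 : ℝ) ≤ √(NN 0) := Real.one_le_sqrt.2 (by simp [NN])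
  have c := Real.cosh_pos (dist z (pt 0))
  have h3 : Real.cosh (dist z (pt 0)) ≤ 12 := by nlinarith
  have h4 : dist z (pt 0) ≤ Real.sinh (dist z (pt 0)) := Real.self_le_sinh_iff.2 dist_nonneg
  have h5 := Real.sinh_lt_cosh (dist z (pt 0))
  linarith

end Pool.Agent.H636Z.Iso
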