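import Mathlib

/-! Eigenfunctions of the hyperbolic Laplacian on the upper half plane form a vector space that
is stable under orientation reversing Moebius maps. -/

set_option autoImplicit false

namespace Pool.Agent.H636Z.Iso

open UpperHalfPlane Complex
open scoped ComplexConjugate Laplacian

/-- The Euclidean Laplacian written with second derivatives. -/
noncomputable def Lp (F : ℂ → ℝ) (z : ℂ) : ℝ :=
  iteratedFDeriv ℝ 2 F z ![1, 1] + iteratedFDeriv ℝ 2 F z ![Complex.I, Complex.I]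

lemma Lp_eq (F : ℂ → ℝ) (z : ℂ) : Lp F z = Δ F z := by
  rw [InnerProductSpace.laplacian_eq_iteratedFDeriv_complexPlane]; rfl

lemma isOpen_U : IsOpen {w : ℂ | 0 < w.im} := isOpen_lt continuous_const Complex.continuous_im

lemma cda {F : ℂ → ℝ} (hF : ContDiffOn ℝ 2 F {w : ℂ | 0 < w.im}) {z : ℂ} (hz : 0 < z.im) :
    ContDiffAt ℝ 2 F z := hF.contDiffAt (isOpen_U.mem_nhds hz)

/-- The space of all eigenfunctions for one eigenvalue. -/
def Eig (μ : ℝ) : Submodule ℝ (ℍ → ℝ) where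
  carrier := {f | ∃ F : ℂ → ℝ, ContDiffOn ℝ 2 F {w : ℂ | 0 < w.im} ∧ (∀ z : ℍ, f z = F z) ∧
    ∀ z : ℍ, -((z : ℂ).im ^ 2 * Lp F z) = μ * f z}
  zero_mem' := ⟨0, contDiffOn_const, fun _ => rfl, fun z => by
    rw [Lp_eq]
    have : Δ (0 : ℂ → ℝ) = 0 := InnerProductSpace.laplacian_const
    simp [this]⟩
  add_mem' := by
    rintro f f' ⟨F, h1, h2, h3⟩ ⟨F', h1', h2', h3'⟩
    refine ⟨F + F', h1.add h1', fun z => by simp [h2, h2'], fun z => ?_⟩
    rw [Lp_eq, (cda h1 z.im_pos).laplacian_add (cda h1' z.im_pos), ← Lp_eq, ← Lp_eq,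
      Pi.add_apply]
    linear_combination h3 z + h3' z
  smul_mem' := by
    rintro c f ⟨F, h1, h2, h3⟩
    refine ⟨c • F, h1.const_smul c, fun z => by simp [h2], fun z => ?_⟩
    rw [Lp_eq, InnerProductSpace.laplacian_smul c (cda h1 z.im_pos), ← Lp_eq, Pi.smul_apply,
      smul_eq_mul, smul_eq_mul]
    linear_combination c * h3 z

/-- Multiplication after conjugation as a real linear map. -/
noncomputable def Mk (k : ℂ) : ℂ →L[ℝ] ℂ :=
  (ContinuousLinearMap.mul ℝ ℂ k).comp (Complex.conjCLE : ℂ →L[ℝ] ℂ)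

lemma Mk_apply (k w : ℂ) : Mk k w = k * conj w := rfl

lemma hasF_conj {h : ℂ → ℂ} {k y : ℂ} (hd : HasDerivAt h k (conj y)) :
    HasFDerivAt (fun y => h (conj y)) (Mk k) y := by
  have h1 := (hd.hasFDerivAt.restrictScalars ℝ).comp y
    (Complex.conjCLE.hasFDerivAt (x := y))
  have e : Mk k = (ContinuousLinearMap.restrictScalars ℝ
      (ContinuousLinearMap.toSpanSingleton ℂ k)).comp (Complex.conjCLE : ℂ →L[ℝ] ℂ) := by
    apply ContinuousLinearMap.ext
    intro w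
    simp [Mk_apply, mul_comm]
  rw [e]
  exact h1

lemma second_comp {F : ℂ → ℝ} {m m1 : ℂ → ℂ} {k z : ℂ} (hz : 0 < z.im)
    (hF : ContDiffOn ℝ 2 F {w : ℂ | 0 < w.im}) (hm : ∀ y : ℂ, 0 < y.im → 0 < (m y).im)
    (hd : ∀ y : ℂ, 0 < y.im → HasFDerivAt m (Mk (m1 y)) y) (hk : HasFDerivAt m1 (Mk k) z)
    (v w : ℂ) :
    fderiv ℝ (fderiv ℝ (F ∘ m)) z v w =
      fderiv ℝ (fderiv ℝ F) (m z) (m1 z * conj v) (m1 z * conj w)
        + fderiv ℝ F (m z) (k * conj v * conj w) := by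
  have ev : fderiv ℝ (F ∘ m) =ᶠ[nhds z] fun y => (fderiv ℝ F (m y)).comp (Mk (m1 y)) := by
    filter_upwards [isOpen_U.mem_nhds hz] with y hy
    exact (((cda hF (hm y hy)).differentiableAt (by norm_num)).hasFDerivAt.comp y (hd y hy)).fderiv
  have d1 : HasFDerivAt (fderiv ℝ F) (fderiv ℝ (fderiv ℝ F) (m z)) (m z) :=
    (((cda hF (hm z hz)).fderiv_right (m := 1) (by norm_num)).differentiableAt
      (by norm_num)).hasFDerivAt
  have d2 : HasFDerivAt (fun y => fderiv ℝ F (m y))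
      ((fderiv ℝ (fderiv ℝ F) (m z)).comp (Mk (m1 z))) z := d1.comp z (hd z hz)
  let Λ : ℂ →L[ℝ] (ℂ →L[ℝ] ℂ) :=
    ((ContinuousLinearMap.compL ℝ ℂ ℂ ℂ).flip (Complex.conjCLE : ℂ →L[ℝ] ℂ)).comp
      (ContinuousLinearMap.mul ℝ ℂ)
  have d3 : HasFDerivAt (fun y => Mk (m1 y)) (Λ.comp (Mk k)) z := Λ.hasFDerivAt.comp z hk
  have d4 := d2.clm_comp d3
  rw [ev.fderiv_eq, d4.fderiv]
  simp [Λ, Mk_apply]
  ring

lemma Lp_comp {F : ℂ → ℝ} {m m1 : ℂ → ℂ} {k z : ℂ} (hz : 0 < z.im)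
    (hF : ContDiffOn ℝ 2 F {w : ℂ | 0 < w.im}) (hm : ∀ y : ℂ, 0 < y.im → 0 < (m y).im)
    (hd : ∀ y : ℂ, 0 < y.im → HasFDerivAt m (Mk (m1 y)) y) (hk : HasFDerivAt m1 (Mk k) z) :
    Lp (F ∘ m) z = Complex.normSq (m1 z) * Lp F (m z) := by
  unfold Lp
  simp only [iteratedFDeriv_two_apply, Matrix.cons_val_zero, Matrix.cons_val_one]
  rw [second_comp hz hF hm hd hk, second_comp hz hF hm hd hk]
  set D := fderiv ℝ (fderiv ℝ F) (m z)
  set E := fderiv ℝ F (m z)
  set a := m1 z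
  have e1 : a * conj 1 = a.re • (1 : ℂ) + a.im • Complex.I := by
    apply Complex.ext <;> simp
  have e2 : a * conj Complex.I = a.im • (1 : ℂ) + (-a.re) • Complex.I := by
    apply Complex.ext <;> simp
  have e3 : k * conj Complex.I * conj Complex.I = -(k * conj 1 * conj 1) := by
    simp only [Complex.conj_I, map_one]
    linear_combination k * Complex.I_mul_I
  rw [e1, e2, e3]
  simp only [map_add, map_smul, map_neg, add_apply,
    smul_apply, smul_eq_mul, Complex.normSq_apply]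
  ring

theorem Eig_comp {μ : ℝ} {f : ℍ → ℝ} (hf : f ∈ Eig μ) (g : GL (Fin 2) ℝ) (hg : g.det.val = -1) :
    (fun z => f (g • z)) ∈ Eig μ := by
  obtain ⟨F, h1, h2, h3⟩ := hf
  set a : ℂ := ((g 0 0 : ℝ) : ℂ)
  set b : ℂ := ((g 0 1 : ℝ) : ℂ)
  set c : ℂ := ((g 1 0 : ℝ) : ℂ)
  set d : ℂ := ((g 1 1 : ℝ) : ℂ)
  have hdet : a * d - b * c = -1 := by
    rw [Matrix.GeneralLinearGroup.val_det_apply, Matrix.det_fin_two] at hg
    have := congrArg (fun t : ℝ => (t : ℂ)) hg
    simpa using this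
  let m : ℂ → ℂ := fun y => (a * conj y + b) / (c * conj y + d)
  let m1 : ℂ → ℂ := fun y => -1 / (c * conj y + d) ^ 2
  have hne : ∀ y : ℂ, 0 < y.im → c * conj y + d ≠ 0 := fun y hy =>
    denom_ne_zero_of_im g (z := conj y) (by simp [hy.ne'])
  have hsm : ∀ z : ℍ, ((g • z : ℍ) : ℂ) = m z := by
    intro z
    rw [coe_smul, σ, if_neg (by rw [hg]; norm_num)]
    simp [num, denom, m, a, b, c, d]
  have hm : ∀ y : ℂ, 0 < y.im → 0 < (m y).im := fun y hy => by
    rw [← hsm ⟨y, hy⟩]; exact (g • (⟨y, hy⟩ : ℍ)).im_pos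
  have hd : ∀ y : ℂ, 0 < y.im → HasFDerivAt m (Mk (m1 y)) y := by
    intro y hy
    apply hasF_conj (h := fun s => (a * s + b) / (c * s + d))
    have n1 : HasDerivAt (fun s => a * s + b) a (conj y) := by
      simpa using ((hasDerivAt_id (conj y)).const_mul a).add_const b
    have n2 : HasDerivAt (fun s => c * s + d) c (conj y) := by
      simpa using ((hasDerivAt_id (conj y)).const_mul c).add_const d
    have e : m1 y = (a * (c * conj y + d) - (a * conj y + b) * c) / (c * conj y + d) ^ 2 := by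
      show -1 / (c * conj y + d) ^ 2 = _
      congr 1
      linear_combination (-1) * hdet
    rw [e]
    exact n1.div n2 (hne y hy)
  have hk : ∀ y : ℂ, 0 < y.im → ∃ k, HasFDerivAt m1 (Mk k) y := by
    intro y hy
    have : DifferentiableAt ℂ (fun s : ℂ => -1 / (c * s + d) ^ 2) (conj y) := by
      have q1 : DifferentiableAt ℂ (fun _ : ℂ => (-1 : ℂ)) (conj y) := by fun_prop
      have q2 : DifferentiableAt ℂ (fun s : ℂ => (c * s + d) ^ 2) (conj y) := by fun_prop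
      exact q1.div q2 (pow_ne_zero 2 (hne y hy))
    exact ⟨_, hasF_conj this.hasDerivAt⟩
  have hc : ContDiff ℝ 2 (fun y : ℂ => conj y) := Complex.conjCLE.contDiff
  refine ⟨F ∘ m, ?_, fun z => ?_, fun z => ?_⟩
  · apply h1.comp _ hm
    have q1 : ContDiffOn ℝ 2 (fun y : ℂ => a * conj y + b) {w : ℂ | 0 < w.im} :=
      ((contDiff_const.mul hc).add contDiff_const).contDiffOn
    have q2 : ContDiffOn ℝ 2 (fun y : ℂ => (c * conj y + d)⁻¹) {w : ℂ | 0 < w.im} :=
      ((contDiff_const.mul hc).add contDiff_const).contDiffOn.inv hne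
    exact (q1.mul q2).congr fun y _ => div_eq_mul_inv _ _
  · simp only [Function.comp, h2, hsm]
  · obtain ⟨k, hk'⟩ := hk z z.im_pos
    rw [Lp_comp z.im_pos h1 hm hd hk', ← h3 (g • z), hsm]
    have e : (m z).im = (z : ℂ).im / Complex.normSq (c * conj (z : ℂ) + d) := by
      rw [← hsm, coe_im, im_smul_eq_div_normSq, hg, coe_im]
      have : c * conj (z : ℂ) + d = conj (denom g z) := by simp [denom, c, d]
      rw [this, Complex.normSq_conj]
      norm_num
    rw [e]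
    simp only [m1, map_div₀, map_pow, Complex.normSq_neg, map_one]
    ring

end Pool.Agent.H636Z.Iso
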