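import Pool.Agent.H636Z.Iso.Geo

/-! Isometries of the upper half plane that are integral in the hyperboloid model belong to the
triangle group. -/

set_option autoImplicit false

namespace Pool.Agent.H636Z.Iso

open Matrix UpperHalfPlane

/-- The matrix with the three lattice vectors as columns. -/
def UU : Matrix (Fin 3) (Fin 3) ℤ := !![7, 2, 4; 3, 1, 1; 3, 1, 2]

/-- Its inverse. -/
def Ui : Matrix (Fin 3) (Fin 3) ℤ := !![1, 0, -2; -3, 2, 5; 0, -1, 1]

lemma UU_Ui : toR UU * toR Ui = 1 := by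
  rw [← toR_mul, show UU * Ui = 1 by decide +kernel, toR_one]

lemma UU_col (k j : Fin 3) : toR UU k j = vR (uu j) k := by
  fin_cases k <;> fin_cases j <;> rfl

lemma mat_ext {A C : Matrix (Fin 3) (Fin 3) ℝ} (h : ∀ j, A *ᵥ Y (pt j) = C *ᵥ Y (pt j)) :
    A = C := by
  have e : A * toR UU = C * toR UU := by
    ext k j
    have := congrFun (congrArg (fun x => √(NN j) • x) (h j)) k
    simp only [← Matrix.mulVec_smul, pt_spec] at this
    simpa only [Matrix.mul_apply, UU_col, Matrix.mulVec, dotProduct] using this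
  rw [← mul_one A, ← mul_one C, ← UU_Ui, ← mul_assoc, ← mul_assoc, e]

lemma B_smul_left (a : ℝ) (x y : Fin 3 → ℝ) : B (a • x) y = a * B x y := by
  have := B_smul a 1 x y
  rwa [one_smul, mul_one] at this

lemma G_det : (toR G).det = -12 := by
  simp [toR, G, Matrix.det_fin_three]
  norm_num

lemma det_sq {A : Matrix (Fin 3) (Fin 3) ℝ} (h : Aᵀ * toR G * A = toR G) :
    A.det = 1 ∨ A.det = -1 := by
  have := congrArg Matrix.det h
  rw [Matrix.det_mul, Matrix.det_mul, Matrix.det_transpose, G_det] at this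
  exact mul_self_eq_one_iff.1 (by linarith)

theorem exists_matrix (φ : ℍ ≃ᵢ ℍ) : ∃ A : Matrix (Fin 3) (Fin 3) ℝ,
    Aᵀ * toR G * A = toR G ∧ ∀ z, Y (φ z) = A *ᵥ Y z := by
  let P : Matrix (Fin 3) (Fin 3) ℝ := fun k j => (√(NN j) • Y (φ (pt j))) k
  have hB : ∀ z w, B (Y (φ z)) (Y (φ w)) = B (Y z) (Y w) := fun z w => by
    rw [B_Y, B_Y, φ.dist_eq]
  have k1 : ∀ z, Pᵀ *ᵥ (toR G *ᵥ Y (φ z)) = (toR UU)ᵀ *ᵥ (toR G *ᵥ Y z) := by
    intro z
    ext j
    have e1 : (Pᵀ *ᵥ (toR G *ᵥ Y (φ z))) j = B (√(NN j) • Y (φ (pt j))) (Y (φ z)) := rfl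
    have e2 : ((toR UU)ᵀ *ᵥ (toR G *ᵥ Y z)) j = B (vR (uu j)) (Y z) := by
      simp only [B, Matrix.mulVec, dotProduct, Matrix.transpose_apply, UU_col]
    rw [e1, e2, ← pt_spec, B_smul_left, B_smul_left, hB]
  have k2 : Pᵀ * toR G * P = (toR UU)ᵀ * toR G * toR UU := by
    ext i j
    have := congrFun (congrArg (fun x => √(NN j) • x) (k1 (pt j))) i
    simp only [Matrix.mulVec_mulVec, ← Matrix.mulVec_smul, pt_spec] at this
    simpa only [Matrix.mul_apply, UU_col, Matrix.mulVec, dotProduct] using this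
  have k3 : (toR Ui)ᵀ * (toR UU)ᵀ = 1 := by
    rw [← Matrix.transpose_mul, UU_Ui, Matrix.transpose_one]
  have k4 : (P * toR Ui)ᵀ * toR G * (P * toR Ui) = toR G := by
    calc (P * toR Ui)ᵀ * toR G * (P * toR Ui)
        = (toR Ui)ᵀ * (Pᵀ * toR G * P) * toR Ui := by
          rw [Matrix.transpose_mul]; simp only [Matrix.mul_assoc]
      _ = ((toR Ui)ᵀ * (toR UU)ᵀ) * toR G * (toR UU * toR Ui) := by
          rw [k2]; simp only [Matrix.mul_assoc]
      _ = toR G := by rw [k3, UU_Ui, one_mul, mul_one]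
  refine ⟨P * toR Ui, k4, fun z => ?_⟩
  have hu : IsUnit ((P * toR Ui)ᵀ * toR G) := by
    rw [Matrix.isUnit_iff_isUnit_det, Matrix.det_mul, Matrix.det_transpose, G_det, isUnit_iff_ne_zero]
    rcases det_sq k4 with e | e <;> rw [e] <;> norm_num
  apply Matrix.mulVec_injective_iff_isUnit.2 hu
  rw [Matrix.mulVec_mulVec, k4, Matrix.transpose_mul, ← Matrix.mulVec_mulVec,
    ← Matrix.mulVec_mulVec, k1, Matrix.mulVec_mulVec, k3, Matrix.one_mulVec]

/-- The vector of the antisymmetric part of a matrix. -/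
def axo {K : Type*} [CommRing K] (N : Matrix (Fin 3) (Fin 3) K) : Fin 3 → K :=
  ![N 2 1 - N 1 2, N 0 2 - N 2 0, N 1 0 - N 0 1]

lemma axo_conj (A N : Matrix (Fin 3) (Fin 3) ℝ) : A *ᵥ axo (Aᵀ * N * A) = A.det • axo N := by
  ext k
  fin_cases k <;>
    simp [axo, Matrix.mulVec, dotProduct, Matrix.mul_apply, Fin.sum_univ_three,
      Matrix.det_fin_three] <;> ring

lemma axo_toR (N : Matrix (Fin 3) (Fin 3) ℤ) : axo (toR N) = vR (axo N) := by
  ext k
  fin_cases k <;> simp [axo, toR, vR]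

lemma axis_int {A : Matrix (Fin 3) (Fin 3) ℝ} (h : Aᵀ * toR G * A = toR G)
    {g g' : Matrix (Fin 3) (Fin 3) ℤ} (e : A * toR g = toR g' * A) :
    ∃ n : Fin 3 → ℤ, A *ᵥ vR (axo (G * g)) = vR n := by
  have e1 : Aᵀ * toR (G * g') * A = toR (G * g) := by
    rw [toR_mul, toR_mul]
    calc Aᵀ * (toR G * toR g') * A = Aᵀ * toR G * (toR g' * A) := by simp only [Matrix.mul_assoc]
      _ = Aᵀ * toR G * A * toR g := by rw [← e]; simp only [Matrix.mul_assoc]
      _ = toR G * toR g := by rw [h]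
  have e2 := axo_conj A (toR (G * g'))
  rw [e1, axo_toR, axo_toR] at e2
  rcases det_sq h with d | d
  · exact ⟨_, by rw [e2, d, one_smul]⟩
  · refine ⟨-axo (G * g'), ?_⟩
    rw [e2, d]
    ext k
    simp [vR]

/-- The integral quadratic form. -/
def qq {K : Type*} [CommRing K] (a b c : K) : K :=
  a ^ 2 + 2 * b ^ 2 + 3 * c ^ 2 - 2 * a * b - 3 * a * c

lemma aniso2 (n : Fin 3 → ℤ) (h : (2 : ℤ) ^ 2 ∣ qq (n 0) (n 1) (n 2)) (k : Fin 3) :
    (2 : ℤ) ∣ n k := by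
  have key : ∀ a b c : ZMod 4, qq a b c = 0 → 2 * a = 0 ∧ 2 * b = 0 ∧ 2 * c = 0 := by
    decide +kernel
  have h4 := (ZMod.intCast_zmod_eq_zero_iff_dvd (qq (n 0) (n 1) (n 2)) 4).2 h
  obtain ⟨a, b, c⟩ := key (n 0) (n 1) (n 2) (by rw [← h4]; simp [qq])
  have t : ∀ x : ℤ, 2 * (x : ZMod 4) = 0 → (2 : ℤ) ∣ x := fun x hx => by
    have := (ZMod.intCast_zmod_eq_zero_iff_dvd (2 * x) 4).1 (by rw [← hx]; simp)
    omega
  fin_cases k
  exacts [t _ a, t _ b, t _ c]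

lemma aniso3 (n : Fin 3 → ℤ) (h : (3 : ℤ) ^ 2 ∣ qq (n 0) (n 1) (n 2)) (k : Fin 3) :
    (3 : ℤ) ∣ n k := by
  have key : ∀ a b c : ZMod 9, qq a b c = 0 → 3 * a = 0 ∧ 3 * b = 0 ∧ 3 * c = 0 := by
    decide +kernel
  have h4 := (ZMod.intCast_zmod_eq_zero_iff_dvd (qq (n 0) (n 1) (n 2)) 9).2 h
  obtain ⟨a, b, c⟩ := key (n 0) (n 1) (n 2) (by rw [← h4]; simp [qq])
  have t : ∀ x : ℤ, 3 * (x : ZMod 9) = 0 → (3 : ℤ) ∣ x := fun x hx => by
    have := (ZMod.intCast_zmod_eq_zero_iff_dvd (3 * x) 9).1 (by rw [← hx]; simp)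
    omega
  fin_cases k
  exacts [t _ a, t _ b, t _ c]

lemma descent {p : ℤ} (hp0 : p ≠ 0)
    (hp : ∀ n : Fin 3 → ℤ, p ^ 2 ∣ qq (n 0) (n 1) (n 2) → ∀ k, p ∣ n k) (d m : ℤ)
    {x : Fin 3 → ℝ} (hx : B x x = 2 * m) (e : ℕ) :
    (∃ n, vR n = ((p ^ e * d : ℤ) : ℝ) • x) → ∃ n, vR n = (d : ℝ) • x := by
  induction e with
  | zero => simp
  | succ e ih =>
    rintro ⟨n, hn⟩
    apply ih
    have h1 : B (vR n) (vR n) = 2 * ((qq (n 0) (n 1) (n 2) : ℤ) : ℝ) := by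
      rw [B_eq]; simp only [vR, qq]; push_cast; ring
    rw [hn, B_smul, hx] at h1
    have h2 : qq (n 0) (n 1) (n 2) = p ^ 2 * ((p ^ e * d) ^ 2 * m) := by
      have : ((qq (n 0) (n 1) (n 2) : ℤ) : ℝ) = ((p ^ 2 * ((p ^ e * d) ^ 2 * m) : ℤ) : ℝ) := by
        push_cast at h1 ⊢
        linear_combination (-1 / 2) * h1
      exact_mod_cast this
    choose n' hn' using hp n ⟨_, h2⟩
    refine ⟨n', ?_⟩
    have hp' : (p : ℝ) ≠ 0 := by exact_mod_cast hp0
    ext k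
    have := congrFun hn k
    simp only [vR, Pi.smul_apply, smul_eq_mul, hn' k] at this ⊢
    push_cast at this ⊢
    apply mul_left_cancel₀ hp'
    linear_combination this

lemma int_of_mul {A : Matrix (Fin 3) (Fin 3) ℝ} (h : Aᵀ * toR G * A = toR G)
    {Z : Matrix (Fin 3) (Fin 3) ℤ} (e : toR Z = (864 : ℝ) • A) :
    ∃ C : Matrix (Fin 3) (Fin 3) ℤ, toR C = A := by
  have key : ∀ j, ∃ n, vR n = fun k => A k j := by
    intro j
    have hx : B (fun k => A k j) (fun k => A k j) = 2 * ((j.val + 1 : ℤ) : ℝ) := by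
      have e1 : (fun k => A k j) = A *ᵥ Pi.single j 1 := by
        rw [Matrix.mulVec_single_one]; rfl
      rw [e1, B_orth h, B_eq]
      fin_cases j <;> simp <;> norm_num
    have s1 := descent (p := 2) (by norm_num) aniso2 (3 ^ 3 * 1) _ hx 5 ⟨fun k => Z k j, by
      ext k
      have := congrFun (congrFun e k) j
      simp only [toR_apply, Matrix.smul_apply, smul_eq_mul] at this
      simp only [vR, Pi.smul_apply, smul_eq_mul, this]
      norm_num⟩
    have s2 := descent (p := 3) (by norm_num) aniso3 1 _ hx 3 s1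
    simpa using s2
  choose n hn using key
  exact ⟨fun k j => n j k, by ext k j; exact congrFun (hn j) k⟩

lemma uniq (j : Fin 3) (n : Fin 3 → ℤ) (hc : Ch (vR n)) (hB : B (vR n) (vR n) = - NN j) :
    n = uu j := by
  have c0 := hc 0
  have c1 := hc 1
  have c2 := hc 2
  rw [B_eq] at hB
  simp [toR, G, dotProduct, Matrix.mulVec, Fin.sum_univ_three, vR] at c0 c1 c2
  simp only [vR] at hB
  obtain ⟨p, hp⟩ : ∃ p : ℤ, p = -2 * n 0 + 2 * n 1 + 3 * n 2 := ⟨_, rfl⟩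
  obtain ⟨s, hs⟩ : ∃ s : ℤ, s = n 0 - 2 * n 1 := ⟨_, rfl⟩
  obtain ⟨t, ht⟩ : ∃ t : ℤ, t = n 0 - 2 * n 2 := ⟨_, rfl⟩
  have p0 : 0 ≤ p := by
    have : (0 : ℝ) ≤ p := by rw [hp]; push_cast; linarith
    exact_mod_cast this
  have s0 : 0 ≤ s := by
    have : (0 : ℝ) ≤ s := by rw [hs]; push_cast; linarith
    exact_mod_cast this
  have t0 : 0 ≤ t := by
    have : (0 : ℝ) ≤ t := by rw [ht]; push_cast; linarith
    exact_mod_cast this
  have hN : 2 * p * p + 4 * p * s + 6 * p * t + s * s + 6 * s * t + 3 * t * t = NN j := by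
    have : ((2 * p * p + 4 * p * s + 6 * p * t + s * s + 6 * s * t + 3 * t * t : ℤ) : ℝ)
        = NN j := by
      rw [hp, hs, ht]; push_cast; linear_combination (-1) * hB
    exact_mod_cast this
  have hN' : NN j ≤ 22 := by fin_cases j <;> simp [NN]
  have ps := mul_nonneg p0 s0
  have pt' := mul_nonneg p0 t0
  have st := mul_nonneg s0 t0
  have p1 : p ≤ 3 := by nlinarith
  have s1 : s ≤ 4 := by nlinarith
  have t1 : t ≤ 2 := by nlinarith
  have fin : n 0 = uu j 0 ∧ n 1 = uu j 1 ∧ n 2 = uu j 2 := by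
    clear ps pt' st hN' hB c0 c1 c2 hc
    fin_cases j <;> simp [NN, uu] at hN ⊢ <;>
      interval_cases p <;> interval_cases s <;> interval_cases t <;> omega
  ext k
  fin_cases k
  exacts [fin.1, fin.2.1, fin.2.2]

lemma fix_pt {φ : ℍ ≃ᵢ ℍ} {A : Matrix (Fin 3) (Fin 3) ℤ} (h : Rel φ A) (j : Fin 3)
    (hc : Ch (Y (φ (pt j)))) : φ (pt j) = pt j := by
  have e : vR (A *ᵥ uu j) = √(NN j) • Y (φ (pt j)) := by
    rw [← toR_mulVec, ← pt_spec, Matrix.mulVec_smul, ← h]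
  have := uniq j (A *ᵥ uu j) (by rw [e]; exact (Ch_smul (sN_pos j)).2 hc) (by
    rw [e, B_smul, B_Y_self, Real.mul_self_sqrt (NN_pos j).le]; ring)
  rw [this, ← pt_spec] at e
  exact (Y_inj (smul_right_injective _ (sN_pos j).ne' e)).symm

theorem rigid {φ : ℍ ≃ᵢ ℍ} {A : Matrix (Fin 3) (Fin 3) ℤ} (h : Rel φ A) : ∃ u : W, φ = io u := by
  obtain ⟨w, hw⟩ := exists_min (φ (pt 0))
  have hψ : Rel (io w * φ) (rho w * A) := (io_rel w).mul h
  have f0 : (io w * φ) (pt 0) = pt 0 := fix_pt hψ 0 (ch_of_min' hw)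
  have fj : ∀ j, (io w * φ) (pt j) = pt j := by
    intro j
    obtain ⟨w', hw'⟩ := exists_min ((io w * φ) (pt j))
    have e : io w' ((io w * φ) (pt j)) = pt j :=
      fix_pt ((io_rel w').mul hψ) j (ch_of_min' hw')
    apply fix_pt hψ j
    apply ch_of_min
    intro i
    have d : dist ((io w * φ) (pt j)) (pt 0) = dist (pt j) (pt 0) := by
      conv_lhs => rw [← f0]
      exact (io w * φ).dist_eq _ _
    rw [d]
    conv_lhs => rw [← e]
    exact hw' _
  have e1 : toR (rho w * A) = 1 := mat_ext fun j => by rw [← hψ, fj, Matrix.one_mulVec]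
  refine ⟨w⁻¹, ?_⟩
  rw [map_inv, eq_inv_iff_mul_eq_one, mul_eq_one_comm]
  ext1 z
  apply Y_inj
  rw [hψ, e1, Matrix.one_mulVec]
  rfl

end Pool.Agent.H636Z.Iso
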