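import Pool.Agent.H636Z.Iso.Trans
import Pool.Agent.H636Z.Iso.Rigid
import Pool.Agent.H636Z.Iso.Data

/-! Two isospectral, non isometric closed hyperbolic surfaces of genus three. -/

set_option autoImplicit false

namespace Pool.Agent.H636Z.Iso

open Matrix UpperHalfPlane

/-- The Fuchsian group of a surface. -/
noncomputable def Gam {D : Data} (h : Good D) : Subgroup (ℍ ≃ᵢ ℍ) := (Stab h).map io

theorem Gam_props {D : Data} (h : Good D) :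
    (∀ γ ∈ Gam h, ∃ a b c d : ℝ, a * d - b * c = 1 ∧
        ∀ z : ℍ, ((γ z : ℍ) : ℂ) = ((a : ℂ) * (z : ℂ) + (b : ℂ)) / ((c : ℂ) * (z : ℂ) + (d : ℂ))) ∧
    (∀ γ ∈ Gam h, γ ≠ 1 → ∀ z : ℍ, γ z ≠ z) ∧
    (∀ K : Set ℍ, IsCompact K → {γ : ℍ ≃ᵢ ℍ | γ ∈ Gam h ∧ (⇑γ '' K ∩ K).Nonempty}.Finite) ∧
    (∃ K : Set ℍ, IsCompact K ∧ ∀ z : ℍ, ∃ γ ∈ Gam h, γ z ∈ K) ∧
    Nonempty (Abelianization (Gam h) ≃* Multiplicative (Fin 6 → ℤ)) := by
  refine ⟨?_, ?_, ?_, ?_, ?_⟩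
  · rintro _ ⟨w, hw, rfl⟩
    exact stab_moebius h hw
  · rintro _ ⟨w, hw, rfl⟩ h1 z hz
    exact h1 (by rw [stab_free h hw hz, map_one])
  · intro K hK
    obtain ⟨r, hr⟩ := hK.isBounded.subset_closedBall (pt 0)
    apply ((finite_ball (2 * r)).image io).subset
    rintro _ ⟨⟨w, _, rfl⟩, _, ⟨x, hx, rfl⟩, hy⟩
    refine ⟨w, ?_, rfl⟩
    have h1 := Metric.mem_closedBall.1 (hr hx)
    have h2 := Metric.mem_closedBall.1 (hr hy)
    have h3 := dist_triangle (io w (pt 0)) (io w x) (pt 0)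
    rw [(io w).dist_eq, dist_comm (pt 0) x] at h3
    show dist (io w (pt 0)) (pt 0) ≤ 2 * r
    linarith
  · refine ⟨⋃ o : Om, io (tw h o)⁻¹ '' Metric.closedBall (pt 0) 12,
      isCompact_iUnion fun o => (isCompact_closedBall _ _).image (io _).continuous, fun z => ?_⟩
    obtain ⟨w, hw⟩ := exists_min z
    refine ⟨io ((tw h (Ac h w 0))⁻¹ * w), ⟨_, ?_, rfl⟩, ?_⟩
    · show Ac h _ 0 = 0
      rw [Ac_mul]
      exact Ac_inv h (Ac_tw h _)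
    · refine Set.mem_iUnion.2 ⟨Ac h w 0, io w z, ?_, (io_mul_apply _ _ _).symm⟩
      exact Metric.mem_closedBall.2 (ch_bound (ch_of_min' hw))
  · obtain ⟨e⟩ := ab_equiv h
    exact ⟨(MulEquiv.abelianizationCongr
      ((Stab h).equivMapOfInjective io io_inj)).symm.trans e⟩

theorem set_eq {D : Data} (h : Good D) (μ : ℝ) :
    {f : ℍ → ℝ | ∃ F : ℂ → ℝ, ContDiffOn ℝ 2 F {w : ℂ | 0 < w.im} ∧
      (∀ z : ℍ, f z = F (z : ℂ)) ∧ (∀ γ ∈ Gam h, ∀ z : ℍ, f (γ z) = f z) ∧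
      ∀ z : ℍ, -((z : ℂ).im ^ 2 * (iteratedFDeriv ℝ 2 F (z : ℂ) ![1, 1]
        + iteratedFDeriv ℝ 2 F (z : ℂ) ![Complex.I, Complex.I])) = μ * f z} = EE h μ := by
  ext f
  constructor
  · rintro ⟨F, h1, h2, h3, h4⟩
    exact ⟨⟨F, h1, h2, h4⟩, fun w hw => h3 _ ⟨w, hw, rfl⟩⟩
  · rintro ⟨⟨F, h1, h2, h4⟩, h3⟩
    refine ⟨F, h1, h2, ?_, h4⟩
    rintro _ ⟨w, hw, rfl⟩
    exact h3 w hw

theorem rank_eq (μ : ℝ) : Module.rank ℝ (EE goodA μ) = Module.rank ℝ (EE goodB μ) :=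
  le_antisymm (rank_le goodA goodB TT_inv (by norm_num) TT_row μ)
    (rank_le goodB goodA (T := fun a b => TT b a) (fun i a b => TT_inv i b a) (by norm_num)
      TT_col μ)

/-- The matrix of the three axis vectors. -/
def AX : Matrix (Fin 3) (Fin 3) ℤ := fun k j => axo (G * ((w3 j).map R).prod) k

/-- A multiple of its inverse. -/
def AXi : Matrix (Fin 3) (Fin 3) ℤ := !![-9, 0, 45; -12, 12, 0; -1, 4, -3]

lemma AX_AXi : AX * AXi = !![864, 0, 0; 0, 864, 0; 0, 0, 864] := by decide +kernel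

theorem not_conj : ¬ ∃ φ : ℍ ≃ᵢ ℍ, ∀ γ : ℍ ≃ᵢ ℍ, γ ∈ Gam goodA ↔ φ * γ * φ⁻¹ ∈ Gam goodB := by
  rintro ⟨φ, hφ⟩
  obtain ⟨A, hA, hY⟩ := exists_matrix φ
  have k1 : ∀ j, ∃ n : Fin 3 → ℤ, A *ᵥ vR (axo (G * ((w3 j).map R).prod)) = vR n := by
    intro j
    obtain ⟨w', _, e⟩ := (hφ (io (cs.wordProd (w3 j)))).1
      ⟨_, (mem_Stab goodA).2 (by rw [Ac_word, w3_fix]), rfl⟩
    rw [← rho_word]
    apply axis_int hA (g' := rho w')
    apply mat_ext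
    intro k
    rw [← Matrix.mulVec_mulVec, ← Matrix.mulVec_mulVec, ← io_rel, ← hY, ← hY, ← io_rel, e]
    simp
  choose n hn using k1
  have k2 : A * toR AX = toR (Matrix.of fun k j => n j k) := by
    ext k j
    exact congrFun (hn j) k
  have k3 : toR (Matrix.of (fun k j => n j k) * AXi) = (864 : ℝ) • A := by
    rw [toR_mul, ← k2, mul_assoc, ← toR_mul, AX_AXi]
    ext i j
    fin_cases j <;> simp [toR, Matrix.mul_apply, Fin.sum_univ_three] <;> ring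
  obtain ⟨C, hC⟩ := int_of_mul hA k3
  obtain ⟨u, rfl⟩ := rigid (φ := φ) (A := C) fun z => by rw [hC, hY]
  obtain ⟨l, hl, hm⟩ := w2_move (Ac goodA u 0)
  apply hm
  obtain ⟨w, hw, e⟩ := (hφ (io (u⁻¹ * cs.wordProd l * u))).2
    ⟨cs.wordProd l, (mem_Stab goodB).2 (by rw [Ac_word, w2_fix l hl]), by
      simp only [map_mul, map_inv]; group⟩
  rw [io_inj e] at hw
  have h2 : Ac goodA (u * (u⁻¹ * cs.wordProd l * u)) 0 = Ac goodA u 0 := by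
    rw [Ac_mul, (mem_Stab goodA).1 hw]
  rw [← mul_assoc, mul_inv_cancel_left, Ac_mul, Ac_word] at h2
  exact h2

end Pool.Agent.H636Z.Iso
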