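import Mathlib

/-! The Coxeter group of the hyperbolic triangle with angles pi/2, pi/4, pi/6, its integral
reflection representation, and the positivity theorem of Tits for it. -/

set_option autoImplicit false

namespace Pool.Agent.H636Z.Iso

open Matrix

/-- Coxeter matrix of the triangle group. -/
def CM : CoxeterMatrix (Fin 3) where
  M := !![1, 4, 6; 4, 1, 2; 6, 2, 1]
  isSymm := by decide
  diagonal := by decide
  off_diagonal := by decide

/-- The abstract Coxeter group. -/
abbrev W : Type := CM.Group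

/-- The Coxeter system. -/
def cs : CoxeterSystem CM W := CM.toCoxeterSystem

/-- Gram matrix of the simple roots. -/
def G : Matrix (Fin 3) (Fin 3) ℤ := !![2, -2, -3; -2, 4, 0; -3, 0, 6]

/-- Simple reflections in the basis of simple roots. -/
def R : Fin 3 → Matrix (Fin 3) (Fin 3) ℤ :=
  ![!![-1, 2, 3; 0, 1, 0; 0, 0, 1], !![1, 0, 0; 1, -1, 0; 0, 0, 1], !![1, 0, 0; 0, 1, 0; 1, 0, -1]]

lemma R_lift : CM.IsLiftable R := by
  unfold CoxeterMatrix.IsLiftable
  decide +kernel

/-- The reflection representation. -/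
noncomputable def rho : W →* Matrix (Fin 3) (Fin 3) ℤ := cs.lift ⟨R, R_lift⟩

lemma rho_simple (i : Fin 3) : rho (cs.simple i) = R i := cs.lift_apply_simple R_lift i

lemma rho_word (l : List (Fin 3)) : rho (cs.wordProd l) = (l.map R).prod := by
  induction l with
  | nil => simp
  | cons i l ih => rw [cs.wordProd_cons, map_mul, rho_simple, ih]; simp

lemma alt_check : ∀ i t : Fin 3, i ≠ t → ∀ m : Fin 6, m.val + 1 ≤ CM t i → ∀ k : Fin 3,
    0 ≤ ((CoxeterSystem.alternatingWord i t m.val).map R).prod k i ∧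
    (k ≠ i → k ≠ t → ((CoxeterSystem.alternatingWord i t m.val).map R).prod k i = 0) := by
  decide +kernel

lemma CM_le : ∀ i t : Fin 3, CM i t ≤ 6 ∧ CM i t ≠ 0 := by decide

theorem tits (n : ℕ) : ∀ w : W, cs.length w = n → ∀ i : Fin 3, ¬ cs.IsRightDescent w i →
    ∀ k, 0 ≤ rho w k i := by
  induction n using Nat.strong_induction_on with
  | _ n ih =>
  intro w hw i hi
  by_cases h1 : w = 1
  · intro k
    subst h1
    rw [map_one, Matrix.one_apply]
    split_ifs <;> norm_num
  obtain ⟨t, ht⟩ := cs.exists_rightDescent_of_ne_one h1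
  have hit : i ≠ t := by rintro rfl; exact hi ht
  classical
  let P : ℕ → Prop := fun m => ∃ v : W,
    w = v * cs.wordProd (CoxeterSystem.alternatingWord i t m) ∧ cs.length v + m = cs.length w
  have hP1 : P 1 := by
    refine ⟨w * cs.simple t, ?_, (cs.isRightDescent_iff).1 ht⟩
    simp [CoxeterSystem.alternatingWord]
  have hn1 : 1 ≤ n := by
    have := (cs.isRightDescent_iff).1 ht
    omega
  have hPm : P (Nat.findGreatest P n) := Nat.findGreatest_spec hn1 hP1
  have hm1 : 1 ≤ Nat.findGreatest P n := Nat.le_findGreatest hn1 hP1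
  have hmax : ¬ P (Nat.findGreatest P n + 1) := by
    intro h
    have hle : Nat.findGreatest P n + 1 ≤ n := by
      obtain ⟨v, _, h2⟩ := h
      omega
    have := Nat.le_findGreatest hle h
    omega
  obtain ⟨m, hm⟩ : ∃ m, Nat.findGreatest P n = m + 1 := ⟨Nat.findGreatest P n - 1, by omega⟩
  rw [hm] at hPm hmax
  obtain ⟨v, hv, hl⟩ := hPm
  have hA : ¬ cs.IsRightDescent v (if Even (m + 1) then t else i) := by
    intro hd
    apply hmax
    refine ⟨v * cs.simple (if Even (m + 1) then t else i), ?_, ?_⟩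
    · rw [CoxeterSystem.alternatingWord_succ', cs.wordProd_cons, ← mul_assoc,
        cs.simple_mul_simple_cancel_right]
      exact hv
    · have := (cs.isRightDescent_iff).1 hd
      omega
  have hB : ¬ cs.IsRightDescent v (if Even m then t else i) := by
    intro hd
    have h2 := (cs.isRightDescent_iff).1 hd
    rw [CoxeterSystem.alternatingWord_succ', cs.wordProd_cons, ← mul_assoc] at hv
    have h3 := cs.length_mul_le (v * cs.simple (if Even m then t else i))
      (cs.wordProd (CoxeterSystem.alternatingWord i t m))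
    have h4 := cs.length_wordProd_le (CoxeterSystem.alternatingWord i t m)
    rw [CoxeterSystem.length_alternatingWord] at h4
    rw [← hv] at h3
    omega
  have hvi : ¬ cs.IsRightDescent v i ∧ ¬ cs.IsRightDescent v t := by
    rcases Nat.even_or_odd m with he | ho
    · have : ¬ Even (m + 1) := by simp [Nat.even_add_one, he]
      rw [if_neg this] at hA
      rw [if_pos he] at hB
      exact ⟨hA, hB⟩
    · have h5 : ¬ Even m := Nat.not_even_iff_odd.2 ho
      have : Even (m + 1) := by simp [Nat.even_add_one, h5]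
      rw [if_pos this] at hA
      rw [if_neg h5] at hB
      exact ⟨hB, hA⟩
  have hlt : cs.length v < n := by omega
  have c1 := ih _ hlt v rfl i hvi.1
  have c2 := ih _ hlt v rfl t hvi.2
  have hred : cs.IsReduced (CoxeterSystem.alternatingWord t i (m + 1 + 1)) := by
    have e1 : w * cs.simple i = v * cs.wordProd (CoxeterSystem.alternatingWord t i (m + 1 + 1)) := by
      rw [CoxeterSystem.alternatingWord_succ t i (m + 1), cs.wordProd_concat, ← mul_assoc, ← hv]
    have e2 := (cs.not_isRightDescent_iff).1 hi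
    have e3 := cs.length_mul_le v (cs.wordProd (CoxeterSystem.alternatingWord t i (m + 1 + 1)))
    have e4 := cs.length_wordProd_le (CoxeterSystem.alternatingWord t i (m + 1 + 1))
    unfold CoxeterSystem.IsReduced
    rw [CoxeterSystem.length_alternatingWord] at e4 ⊢
    rw [← e1] at e3
    omega
  have hle : m + 1 + 1 ≤ CM t i := by
    by_contra hc
    exact cs.not_isReduced_alternatingWord t i (CM_le t i).2 (by omega) hred
  have h6 : m + 1 < 6 := by have := (CM_le t i).1; omega
  have hc := alt_check i t hit ⟨m + 1, h6⟩ hle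
  intro k
  rw [hv, map_mul, rho_word, Matrix.mul_apply]
  apply Finset.sum_nonneg
  intro j _
  by_cases hj : j = i
  · exact mul_nonneg (hj ▸ c1 k) (hc j).1
  by_cases hj' : j = t
  · exact mul_nonneg (hj' ▸ c2 k) (hc j).1
  · have := (hc j).2 hj hj'
    simp only at this
    rw [this, mul_zero]

/-- The real matrix of an integer matrix. -/
def toR (A : Matrix (Fin 3) (Fin 3) ℤ) : Matrix (Fin 3) (Fin 3) ℝ := A.map (Int.castRingHom ℝ)

lemma toR_mul (A B : Matrix (Fin 3) (Fin 3) ℤ) : toR (A * B) = toR A * toR B := by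
  unfold toR; rw [Matrix.map_mul]

lemma toR_one : toR 1 = 1 := by
  unfold toR; simp

lemma toR_apply (A : Matrix (Fin 3) (Fin 3) ℤ) (i j : Fin 3) : toR A i j = (A i j : ℝ) := rfl

lemma toR_transpose (A : Matrix (Fin 3) (Fin 3) ℤ) : toR Aᵀ = (toR A)ᵀ := rfl

lemma R_orth : ∀ i, (R i)ᵀ * G * R i = G := by decide +kernel

lemma rho_orth (w : W) : (rho w)ᵀ * G * rho w = G := by
  induction w using cs.simple_induction_right with
  | one => simp
  | mul_simple_right w i ih =>
    rw [map_mul, rho_simple, Matrix.transpose_mul]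
    calc (R i)ᵀ * (rho w)ᵀ * G * (rho w * R i) = (R i)ᵀ * ((rho w)ᵀ * G * rho w) * R i := by
          simp only [Matrix.mul_assoc]
      _ = G := by rw [ih, R_orth]

/-- The bilinear form. -/
def B (x y : Fin 3 → ℝ) : ℝ := x ⬝ᵥ (toR G *ᵥ y)

lemma B_eq (x y : Fin 3 → ℝ) : B x y = 2 * x 0 * y 0 - 2 * x 0 * y 1 - 3 * x 0 * y 2
    - 2 * x 1 * y 0 + 4 * x 1 * y 1 - 3 * x 2 * y 0 + 6 * x 2 * y 2 := by
  simp [B, toR, G, dotProduct, Matrix.mulVec, Fin.sum_univ_three]
  ring

lemma B_orth {A : Matrix (Fin 3) (Fin 3) ℝ} (h : Aᵀ * toR G * A = toR G) (x y : Fin 3 → ℝ) :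
    B (A *ᵥ x) (A *ᵥ y) = B x y := by
  unfold B
  conv_rhs => rw [← h]
  rw [← Matrix.mulVec_mulVec, ← Matrix.mulVec_mulVec, Matrix.dotProduct_mulVec x Aᵀ,
    Matrix.vecMul_transpose]

lemma rhoR_orth (w : W) : (toR (rho w))ᵀ * toR G * toR (rho w) = toR G := by
  rw [← toR_transpose, ← toR_mul, ← toR_mul, rho_orth]

/-- The closed fundamental chamber. -/
def Ch (x : Fin 3 → ℝ) : Prop := ∀ i, (toR G *ᵥ x) i ≤ 0

lemma R_col : ∀ i k : Fin 3, R i k i = if k = i then -1 else 0 := by decide +kernel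

lemma R_fix {x : Fin 3 → ℝ} {i : Fin 3} (h : (toR G *ᵥ x) i = 0) : toR (R i) *ᵥ x = x := by
  ext k
  fin_cases i <;> fin_cases k <;>
    simp [toR, G, R, dotProduct, Matrix.mulVec, Fin.sum_univ_three] at h ⊢ <;> linarith

theorem chamber {x : Fin 3 → ℝ} (hx : Ch x) (P : W → Prop) (h1 : P 1)
    (hs : ∀ w i, (toR G *ᵥ x) i = 0 → P w → P (w * cs.simple i)) (n : ℕ) :
    ∀ w : W, cs.length w = n → Ch (toR (rho w) *ᵥ x) → P w ∧ toR (rho w) *ᵥ x = x := by
  induction n using Nat.strong_induction_on with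
  | _ n ih =>
  intro w hw hc
  by_cases hw1 : w = 1
  · subst hw1
    exact ⟨h1, by rw [map_one, toR_one, Matrix.one_mulVec]⟩
  obtain ⟨i, hi⟩ := cs.exists_rightDescent_of_ne_one hw1
  have hl := (cs.isRightDescent_iff).1 hi
  have hnd : ¬ cs.IsRightDescent (w * cs.simple i) i :=
    (cs.isRightDescent_iff_not_isRightDescent_mul).1 hi
  have hpos := tits _ _ rfl i hnd
  have hw' : w = w * cs.simple i * cs.simple i := by simp
  have hcol : ∀ k, rho w k i ≤ 0 := by
    intro k
    rw [hw', map_mul _ (w * cs.simple i), rho_simple, Matrix.mul_apply]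
    simp only [R_col, mul_ite, mul_neg, mul_one, mul_zero, Finset.sum_ite_eq', Finset.mem_univ,
      if_true]
    have := hpos k
    linarith
  have hz : (toR G *ᵥ x) i = 0 := by
    apply le_antisymm (hx i)
    have e1 : (toR G *ᵥ x) i = B (Pi.single i 1) x := by simp [B]
    rw [e1, ← B_orth (rhoR_orth w)]
    unfold B
    apply Finset.sum_nonneg
    intro k _
    apply mul_nonneg_of_nonpos_of_nonpos _ (hc k)
    rw [Matrix.mulVec_single_one]
    have := hcol k
    show ((rho w k i : ℤ) : ℝ) ≤ 0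
    exact_mod_cast this
  have e2 : toR (rho (w * cs.simple i)) *ᵥ x = toR (rho w) *ᵥ x := by
    rw [map_mul, rho_simple, toR_mul, ← Matrix.mulVec_mulVec, R_fix hz]
  obtain ⟨p1, p2⟩ := ih (cs.length (w * cs.simple i)) (by omega) (w * cs.simple i) rfl (e2 ▸ hc)
  refine ⟨?_, e2 ▸ p2⟩
  rw [hw']
  exact hs _ _ hz p1

end Pool.Agent.H636Z.Iso
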