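import Pool.Agent.H636Z.Iso.Flags
import Pool.Agent.H636Z.Iso.Lap

/-! Transplantation of eigenfunctions. -/

set_option autoImplicit false

namespace Pool.Agent.H636Z.Iso

open Matrix UpperHalfPlane

lemma Eig_io {μ : ℝ} (w : W) : ∀ f ∈ Eig μ, (fun z => f (io w z)) ∈ Eig μ := by
  induction w using cs.simple_induction_left with
  | one => intro f hf; simpa using hf
  | mul_simple_left w i ih =>
    intro f hf
    have := ih _ (Eig_comp hf (gg i) (gg_det i))
    simpa only [io_mul_apply, io_simple, rr_apply] using this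

/-- Eigenfunctions invariant under the stabilizer of the base flag. -/
def EE {D : Data} (h : Good D) (μ : ℝ) : Submodule ℝ (ℍ → ℝ) where
  carrier := {f | f ∈ Eig μ ∧ ∀ w ∈ Stab h, ∀ z, f (io w z) = f z}
  zero_mem' := ⟨(Eig μ).zero_mem, fun _ _ _ => rfl⟩
  add_mem' := fun ha hb => ⟨(Eig μ).add_mem ha.1 hb.1, fun w hw z => by
    simp only [Pi.add_apply, ha.2 w hw, hb.2 w hw]⟩
  smul_mem' := fun c _ ha => ⟨(Eig μ).smul_mem c ha.1, fun w hw z => by
    simp only [Pi.smul_apply, ha.2 w hw]⟩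

variable {D D' : Data} (h : Good D) (h' : Good D')

/-- The family of translates of a function. -/
noncomputable def Ph (f : ℍ → ℝ) (o : Om) : ℍ → ℝ := fun z => f (io (tw h o)⁻¹ z)

lemma Ph_equiv {f : ℍ → ℝ} (hf : ∀ w ∈ Stab h, ∀ z, f (io w z) = f z) (w : W) (o : Om) (z : ℍ) :
    Ph h f (Ac h w o) (io w z) = Ph h f o z := by
  unfold Ph
  rw [← hf _ (Sch h w o).2 (io (tw h o)⁻¹ z), ← io_mul_apply, ← io_mul_apply]
  simp only [Sch, mul_inv_cancel_right]

/-- The transplanted family. -/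
noncomputable def Ps (T : Om → Om → ℤ) (f : ℍ → ℝ) (a : Om) : ℍ → ℝ :=
  ∑ b, (T a b : ℝ) • Ph h f b

lemma T_inv {T : Om → Om → ℤ} (hT : ∀ i a b, T (D'.sg i a) (D.sg i b) = T a b) (w : W) (a b : Om) :
    T (Ac h' w a) (Ac h w b) = T a b := by
  induction w using cs.simple_induction_left with
  | one => rw [Ac_one, Ac_one]
  | mul_simple_left w i ih => rw [Ac_mul, Ac_mul, Ac_simple, Ac_simple, hT, ih]

lemma Ps_equiv {T : Om → Om → ℤ} (hT : ∀ i a b, T (D'.sg i a) (D.sg i b) = T a b) {f : ℍ → ℝ}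
    (hf : ∀ w ∈ Stab h, ∀ z, f (io w z) = f z) (w : W) (a : Om) (z : ℍ) :
    Ps h T f (Ac h' w a) (io w z) = Ps h T f a z := by
  unfold Ps
  simp only [Finset.sum_apply, Pi.smul_apply, smul_eq_mul]
  rw [← (Ac_bij h w).sum_comp]
  simp only [T_inv h h' hT, Ph_equiv h hf]

theorem rank_le {T : Om → Om → ℤ} (hT : ∀ i a b, T (D'.sg i a) (D.sg i b) = T a b)
    {r : Om → ℤ} {c : ℤ} (hc : c ≠ 0) (hr : ∀ b, ∑ a, r a * T a b = if b = 0 then c else 0)
    (μ : ℝ) : Module.rank ℝ (EE h μ) ≤ Module.rank ℝ (EE h' μ) := by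
  let L : EE h μ →ₗ[ℝ] EE h' μ :=
    { toFun := fun f => ⟨Ps h T f 0,
        (Eig μ).sum_mem fun b _ => (Eig μ).smul_mem _ (Eig_io _ _ f.2.1), fun w hw z => by
          have := Ps_equiv h h' hT f.2.2 w 0 z
          rwa [(mem_Stab h').1 hw] at this⟩
      map_add' := fun f g => by
        apply Subtype.ext
        funext z
        simp [Ps, Ph, Finset.sum_apply, mul_add, Finset.sum_add_distrib]
      map_smul' := fun t f => by
        apply Subtype.ext
        funext z
        simp [Ps, Ph, Finset.sum_apply, Finset.mul_sum, mul_left_comm] }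
  apply LinearMap.rank_le_of_injective L
  rw [injective_iff_map_eq_zero]
  intro f hf
  have h0 : Ps h T f 0 = 0 := congrArg Subtype.val hf
  have h1 : ∀ a z, Ps h T f a z = 0 := by
    intro a z
    have := Ps_equiv h h' hT f.2.2 (tw h' a) 0 (io (tw h' a)⁻¹ z)
    rw [Ac_tw, ← io_mul_apply, mul_inv_cancel, map_one, h0] at this
    exact this
  apply Subtype.ext
  funext z
  have h2 : ∑ a, (r a : ℝ) * Ps h T f a z = c * f.1 z := by
    unfold Ps
    simp only [Finset.sum_apply, Pi.smul_apply, smul_eq_mul, Finset.mul_sum]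
    rw [Finset.sum_comm]
    have : ∀ b, ∑ a, (r a : ℝ) * ((T a b : ℝ) * Ph h f b z) =
        if b = 0 then (c : ℝ) * Ph h f b z else 0 := by
      intro b
      simp only [← mul_assoc]
      rw [← Finset.sum_mul]
      have e : ∑ a, (r a : ℝ) * (T a b : ℝ) = ((if b = 0 then c else 0 : ℤ) : ℝ) := by
        rw [← hr b]; push_cast; rfl
      rw [e]
      split_ifs <;> simp
    simp only [this, Finset.sum_ite_eq', Finset.mem_univ, if_true]
    unfold Ph
    rw [tw_zero, inv_one, map_one]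
    rfl
  simp only [h1, mul_zero, Finset.sum_const_zero] at h2
  have hc' : (c : ℝ) ≠ 0 := by exact_mod_cast hc
  exact (mul_eq_zero.1 h2.symm).resolve_left hc'

end Pool.Agent.H636Z.Iso
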